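import Mathlib

set_option autoImplicit false
set_option linter.style.haveILetI false
set_option linter.unusedVariables false

/-!
# Parameter-free definability in a commutative ring

`D P` : the predicate `P` on assignments `ℕ → R` is defined by a formula in the language of rings;
`T t` : the function `t` of assignments is given by a term.
-/

namespace Pool.Agent.W891.Fo

open FirstOrder FirstOrder.Language

variable {R : Type} [CommRing R]

/-- the structure of a ring -/
noncomputable abbrev str (R : Type) [CommRing R] : FirstOrder.Ring.CompatibleRing R :=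
  FirstOrder.Ring.compatibleRingOfRing R

/-- functions given by terms -/
def T (t : (ℕ → R) → R) : Prop :=
  ∃ τ : Language.ring.Term ℕ, ∀ v : ℕ → R,
    @Term.realize Language.ring R (str R).toStructure ℕ v τ = t v

/-- predicates given by formulas -/
def D (P : (ℕ → R) → Prop) : Prop :=
  ∃ φ : Language.ring.Formula ℕ, ∀ v : ℕ → R,
    @Formula.Realize Language.ring R (str R).toStructure ℕ φ v ↔ P v

theorem T.var (n : ℕ) : T (fun v : ℕ → R => v n) := ⟨Term.var n, fun v => rfl⟩

theorem T.add {s t : (ℕ → R) → R} (hs : T s) (ht : T t) : T (fun v => s v + t v) := by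
  letI := str R
  obtain ⟨σ, hσ⟩ := hs
  obtain ⟨τ, hτ⟩ := ht
  refine ⟨σ + τ, fun v => ?_⟩
  beta_reduce
  rw [← hσ v, ← hτ v]
  exact FirstOrder.Ring.realize_add σ τ v

theorem T.mul {s t : (ℕ → R) → R} (hs : T s) (ht : T t) : T (fun v => s v * t v) := by
  letI := str R
  obtain ⟨σ, hσ⟩ := hs
  obtain ⟨τ, hτ⟩ := ht
  refine ⟨σ * τ, fun v => ?_⟩
  beta_reduce
  rw [← hσ v, ← hτ v]
  exact FirstOrder.Ring.realize_mul σ τ v

theorem T.neg {s : (ℕ → R) → R} (hs : T s) : T (fun v => -s v) := by
  letI := str R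
  obtain ⟨σ, hσ⟩ := hs
  refine ⟨-σ, fun v => ?_⟩
  beta_reduce
  rw [← hσ v]
  exact FirstOrder.Ring.realize_neg σ v

theorem T.sub {s t : (ℕ → R) → R} (hs : T s) (ht : T t) : T (fun v => s v - t v) := by
  simpa only [sub_eq_add_neg] using hs.add ht.neg

theorem T.zero : T (fun _ : ℕ → R => 0) := by
  letI := str R
  exact ⟨0, fun v => FirstOrder.Ring.realize_zero v⟩

theorem T.one : T (fun _ : ℕ → R => 1) := by
  letI := str R
  exact ⟨1, fun v => FirstOrder.Ring.realize_one v⟩

theorem T.nat (n : ℕ) : T (fun _ : ℕ → R => (n : R)) := by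
  induction n with
  | zero => simpa using T.zero
  | succ n ih => simpa using ih.add T.one

theorem T.pow {s : (ℕ → R) → R} (hs : T s) (n : ℕ) : T (fun v => s v ^ n) := by
  induction n with
  | zero => simpa using T.one
  | succ n ih => simpa only [pow_succ] using ih.mul hs

theorem T.two : T (fun _ : ℕ → R => 2) := by simpa using T.nat (R := R) 2

theorem D.congr {P Q : (ℕ → R) → Prop} (hP : D P) (h : ∀ v, P v ↔ Q v) : D Q := by
  obtain ⟨φ, hφ⟩ := hP
  exact ⟨φ, fun v => (hφ v).trans (h v)⟩

theorem D.eq {s t : (ℕ → R) → R} (hs : T s) (ht : T t) : D (fun v => s v = t v) := by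
  letI := str R
  obtain ⟨σ, hσ⟩ := hs
  obtain ⟨τ, hτ⟩ := ht
  refine ⟨σ.equal τ, fun v => ?_⟩
  beta_reduce
  rw [← hσ v, ← hτ v]
  exact Formula.realize_equal

theorem D.not {P : (ℕ → R) → Prop} (hP : D P) : D (fun v => ¬ P v) := by
  letI := str R
  obtain ⟨φ, hφ⟩ := hP
  refine ⟨φ.not, fun v => ?_⟩
  beta_reduce
  rw [← hφ v]
  exact Formula.realize_not

theorem D.imp {P Q : (ℕ → R) → Prop} (hP : D P) (hQ : D Q) : D (fun v => P v → Q v) := by
  letI := str R
  obtain ⟨φ, hφ⟩ := hP
  obtain ⟨ψ, hψ⟩ := hQ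
  refine ⟨φ.imp ψ, fun v => ?_⟩
  beta_reduce
  rw [← hφ v, ← hψ v]
  exact Formula.realize_imp

theorem D.and {P Q : (ℕ → R) → Prop} (hP : D P) (hQ : D Q) : D (fun v => P v ∧ Q v) :=
  (hP.imp hQ.not).not.congr fun v => by tauto

theorem D.or {P Q : (ℕ → R) → Prop} (hP : D P) (hQ : D Q) : D (fun v => P v ∨ Q v) :=
  (hP.not.imp hQ).congr fun v => by tauto

theorem D.iff {P Q : (ℕ → R) → Prop} (hP : D P) (hQ : D Q) : D (fun v => (P v ↔ Q v)) :=
  ((hP.imp hQ).and (hQ.imp hP)).congr fun v => by tauto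

/-- put `x` in front of an assignment -/
def cons (x : R) (v : ℕ → R) : ℕ → R := fun n => Nat.casesOn n x v

theorem D.ex {P : R → (ℕ → R) → Prop} (hP : D (fun v => P (v 0) (fun n => v (n + 1)))) :
    D (fun v => ∃ x, P x v) := by
  letI := str R
  obtain ⟨φ, hφ⟩ := hP
  let g : ℕ → ℕ ⊕ Unit := fun n => Nat.casesOn n (Sum.inr ()) (fun m => Sum.inl m)
  refine ⟨(φ.relabel g).iExs Unit, fun v => ?_⟩
  rw [Formula.realize_iExs]
  constructor
  · rintro ⟨i, hi⟩
    rw [Formula.realize_relabel] at hi
    have := (hφ _).1 hi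
    exact ⟨i (), this⟩
  · rintro ⟨x, hx⟩
    refine ⟨fun _ => x, ?_⟩
    rw [Formula.realize_relabel]
    exact (hφ _).2 hx

theorem D.all {P : R → (ℕ → R) → Prop} (hP : D (fun v => P (v 0) (fun n => v (n + 1)))) :
    D (fun v => ∀ x, P x v) :=
  (D.ex (P := fun x v => ¬ P x v) hP.not).not.congr fun v => by push Not; exact Iff.rfl

/-- renaming of variables: substitution of terms for variables -/
theorem D.subst {P : (ℕ → R) → Prop} (hP : D P) {s : ℕ → (ℕ → R) → R} (hs : ∀ n, T (s n)) :
    D (fun v => P (fun n => s n v)) := by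
  letI := str R
  obtain ⟨φ, hφ⟩ := hP
  choose σ hσ using hs
  refine ⟨φ.subst σ, fun v => ?_⟩
  have h1 : @Formula.Realize Language.ring R (str R).toStructure ℕ (φ.subst σ) v ↔
      @Formula.Realize Language.ring R (str R).toStructure ℕ φ
        (fun a => @Term.realize Language.ring R (str R).toStructure ℕ v (σ a)) := by
    unfold Formula.Realize
    exact BoundedFormula.realize_subst
  rw [h1, hφ]
  simp only [hσ]

/-- unary predicates -/
def D1 (Q : R → Prop) : Prop := D (fun v => Q (v 0))

/-- binary predicates -/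
def D2 (Q : R → R → Prop) : Prop := D (fun v => Q (v 0) (v 1))

/-- ternary predicates -/
def D3 (Q : R → R → R → Prop) : Prop := D (fun v => Q (v 0) (v 1) (v 2))

/-- predicates of four arguments -/
def D4 (Q : R → R → R → R → Prop) : Prop := D (fun v => Q (v 0) (v 1) (v 2) (v 3))

theorem D1.app {Q : R → Prop} (h : D1 Q) {a : (ℕ → R) → R} (ha : T a) : D (fun v => Q (a v)) :=
  D.subst (P := fun v => Q (v 0)) h (s := fun _ => a) (fun _ => ha)

theorem D2.app {Q : R → R → Prop} (h : D2 Q) {a b : (ℕ → R) → R} (ha : T a) (hb : T b) :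
    D (fun v => Q (a v) (b v)) :=
  D.subst (P := fun v => Q (v 0) (v 1)) h
    (s := fun n => match n with
      | 0 => a
      | _ => b) (fun n => by
        match n with
        | 0 => exact ha
        | n + 1 => exact hb)

theorem D3.app {Q : R → R → R → Prop} (h : D3 Q) {a b c : (ℕ → R) → R} (ha : T a) (hb : T b)
    (hc : T c) : D (fun v => Q (a v) (b v) (c v)) :=
  D.subst (P := fun v => Q (v 0) (v 1) (v 2)) h
    (s := fun n => match n with
      | 0 => a
      | 1 => b
      | _ => c) (fun n => by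
        match n with
        | 0 => exact ha
        | 1 => exact hb
        | n + 2 => exact hc)

theorem D4.app {Q : R → R → R → R → Prop} (h : D4 Q) {a b c d : (ℕ → R) → R} (ha : T a)
    (hb : T b) (hc : T c) (hd : T d) : D (fun v => Q (a v) (b v) (c v) (d v)) :=
  D.subst (P := fun v => Q (v 0) (v 1) (v 2) (v 3)) h
    (s := fun n => match n with
      | 0 => a
      | 1 => b
      | 2 => c
      | _ => d) (fun n => by
        match n with
        | 0 => exact ha
        | 1 => exact hb
        | 2 => exact hc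
        | n + 3 => exact hd)

theorem D.dvd {s t : (ℕ → R) → R} (hs : T s) (ht : T t) : D (fun v => s v ∣ t v) := by
  have h : D2 (fun a b : R => a ∣ b) := by
    refine D.congr (P := fun v => ∃ x, v 1 = v 0 * x) (D.ex ?_) fun v => Iff.rfl
    exact D.eq (T.var 2) ((T.var 1).mul (T.var 0))
  exact h.app hs ht

theorem D.unit {s : (ℕ → R) → R} (hs : T s) : D (fun v => IsUnit (s v)) :=
  (D.dvd hs T.one).congr fun v => isUnit_iff_dvd_one.symm

/-- the final step -/
theorem D1.formula {Q : R → Prop} (h : D1 Q) :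
    ∃ φ : Language.ring.Formula (Fin 1), ∀ f : R,
      (@Formula.Realize Language.ring R (FirstOrder.Ring.compatibleRingOfRing R).toStructure
        (Fin 1) φ (fun _ => f)) ↔ Q f := by
  letI := str R
  obtain ⟨φ, hφ⟩ := h
  refine ⟨φ.relabel (fun _ => 0), fun f => ?_⟩
  rw [Formula.realize_relabel]
  exact hφ (fun _ => f)

end Pool.Agent.W891.Fo
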