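import Mathlib
import Pool.Agent.W891.Fo

set_option autoImplicit false
set_option linter.style.haveILetI false
set_option linter.unusedVariables false

/-!
# The ring of holomorphic functions on the unit disc: points and values
-/

namespace Pool.Agent.W891.HD

open Metric Set Filter Topology

/-- the generating set of the frozen statement -/
abbrev gen : Set (ℂ → ℂ) := {g : ℂ → ℂ | DifferentiableOn ℂ g (Metric.ball (0:ℂ) 1) ∧
                ∀ z ∉ Metric.ball (0:ℂ) 1, g z = g 0}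

/-- the ring -/
abbrev H : Type := ↥(Subring.closure {g : ℂ → ℂ | DifferentiableOn ℂ g (Metric.ball (0:ℂ) 1) ∧
                ∀ z ∉ Metric.ball (0:ℂ) 1, g z = g 0})

theorem mem_gen_of_mem {f : ℂ → ℂ} (hf : f ∈ Subring.closure gen) : f ∈ gen := by
  induction hf using Subring.closure_induction with
  | mem x hx => exact hx
  | zero => exact ⟨differentiableOn_const 0, fun z _ => rfl⟩
  | one => exact ⟨differentiableOn_const 1, fun z _ => rfl⟩
  | add x y _ _ hx hy =>
    exact ⟨hx.1.add hy.1, fun z hz => by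
      show x z + y z = x 0 + y 0
      rw [hx.2 z hz, hy.2 z hz]⟩
  | neg x _ hx => exact ⟨hx.1.neg, fun z hz => by
      show -x z = -x 0
      rw [hx.2 z hz]⟩
  | mul x y _ _ hx hy =>
    exact ⟨hx.1.mul hy.1, fun z hz => by
      show x z * y z = x 0 * y 0
      rw [hx.2 z hz, hy.2 z hz]⟩

theorem diff (f : H) : DifferentiableOn ℂ (f : ℂ → ℂ) (ball 0 1) := (mem_gen_of_mem f.2).1

theorem diffAt (f : H) {z : ℂ} (hz : z ∈ ball (0 : ℂ) 1) : DifferentiableAt ℂ (f : ℂ → ℂ) z :=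
  (diff f).differentiableAt (isOpen_ball.mem_nhds hz)

theorem off (f : H) {z : ℂ} (hz : z ∉ ball (0 : ℂ) 1) : (f : ℂ → ℂ) z = (f : ℂ → ℂ) 0 :=
  (mem_gen_of_mem f.2).2 z hz

theorem zero_mem : (0 : ℂ) ∈ ball (0 : ℂ) 1 := by simp

theorem ext {f g : H} (h : ∀ z ∈ ball (0 : ℂ) 1, (f : ℂ → ℂ) z = (g : ℂ → ℂ) z) : f = g := by
  apply Subtype.ext
  funext z
  by_cases hz : z ∈ ball (0 : ℂ) 1
  · exact h z hz
  · rw [off f hz, off g hz]
    exact h 0 zero_mem

open Classical in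
/-- the element given by a function holomorphic in the disc -/
noncomputable def mk (g : ℂ → ℂ) (hg : DifferentiableOn ℂ g (ball 0 1)) : H :=
  ⟨fun z => if z ∈ ball (0 : ℂ) 1 then g z else g 0, Subring.subset_closure ⟨by
    refine hg.congr fun z hz => ?_
    simp only [hz, if_true], fun z hz => by
    simp only [hz, if_false, zero_mem, if_true]⟩⟩

open Classical in
theorem mk_apply {g : ℂ → ℂ} (hg : DifferentiableOn ℂ g (ball 0 1)) {z : ℂ}
    (hz : z ∈ ball (0 : ℂ) 1) : (mk g hg : ℂ → ℂ) z = g z := by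
  show (if z ∈ ball (0 : ℂ) 1 then g z else g 0) = g z
  simp only [hz, if_true]

@[simp] theorem add_apply (f g : H) (z : ℂ) :
    ((f + g : H) : ℂ → ℂ) z = (f : ℂ → ℂ) z + (g : ℂ → ℂ) z := rfl

@[simp] theorem mul_apply (f g : H) (z : ℂ) :
    ((f * g : H) : ℂ → ℂ) z = (f : ℂ → ℂ) z * (g : ℂ → ℂ) z := rfl

@[simp] theorem neg_apply (f : H) (z : ℂ) : ((-f : H) : ℂ → ℂ) z = -(f : ℂ → ℂ) z := rfl

@[simp] theorem sub_apply (f g : H) (z : ℂ) :
    ((f - g : H) : ℂ → ℂ) z = (f : ℂ → ℂ) z - (g : ℂ → ℂ) z := rfl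

@[simp] theorem zero_apply (z : ℂ) : ((0 : H) : ℂ → ℂ) z = 0 := rfl

@[simp] theorem one_apply (z : ℂ) : ((1 : H) : ℂ → ℂ) z = 1 := rfl

@[simp] theorem two_apply (z : ℂ) : ((2 : H) : ℂ → ℂ) z = 2 := rfl

@[simp] theorem pow_apply (f : H) (n : ℕ) (z : ℂ) :
    ((f ^ n : H) : ℂ → ℂ) z = (f : ℂ → ℂ) z ^ n := rfl

/-- constants -/
noncomputable def con (c : ℂ) : H := mk (fun _ => c) (differentiableOn_const c)

open Classical in
@[simp] theorem con_apply (c z : ℂ) : (con c : ℂ → ℂ) z = c := by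
  show (if z ∈ ball (0 : ℂ) 1 then c else c) = c
  split_ifs <;> rfl

theorem con_inj {c d : ℂ} (h : con c = con d) : c = d := by
  have := congrArg (fun f : H => (f : ℂ → ℂ) 0) h
  simpa using this

theorem con_add (c d : ℂ) : con (c + d) = con c + con d := ext fun z _ => by simp
theorem con_mul (c d : ℂ) : con (c * d) = con c * con d := ext fun z _ => by simp
theorem con_sub (c d : ℂ) : con (c - d) = con c - con d := ext fun z _ => by simp
theorem con_neg (c : ℂ) : con (-c) = -con c := ext fun z _ => by simp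
theorem con_one : con 1 = 1 := ext fun z _ => by simp
theorem con_zero : con 0 = 0 := ext fun z _ => by simp

theorem isUnit_iff {f : H} : IsUnit f ↔ ∀ z ∈ ball (0 : ℂ) 1, (f : ℂ → ℂ) z ≠ 0 := by
  constructor
  · rintro ⟨u, rfl⟩ z _ h
    have h1 : ((u : H) * ((u⁻¹ : Hˣ) : H) : H) = 1 := u.mul_inv
    have h2 := congrArg (fun f : H => (f : ℂ → ℂ) z) h1
    simp only [mul_apply, one_apply] at h2
    rw [h, zero_mul] at h2
    exact zero_ne_one h2
  · intro h
    refine IsUnit.of_mul_eq_one (mk (fun z => ((f : ℂ → ℂ) z)⁻¹) ((diff f).inv h)) ?_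
    refine ext fun z hz => ?_
    rw [mul_apply, mk_apply _ hz, one_apply, mul_inv_cancel₀ (h z hz)]

/-- the function `z - p` -/
noncomputable def pt (p : ℂ) : H :=
  mk (fun z => z - p) (differentiableOn_id.sub (differentiableOn_const p))

theorem pt_apply (p : ℂ) {z : ℂ} (hz : z ∈ ball (0 : ℂ) 1) : (pt p : ℂ → ℂ) z = z - p :=
  mk_apply _ hz

theorem pt_dvd {p : ℂ} (hp : p ∈ ball (0 : ℂ) 1) {f : H} : pt p ∣ f ↔ (f : ℂ → ℂ) p = 0 := by
  constructor
  · rintro ⟨g, rfl⟩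
    rw [mul_apply, pt_apply p hp, sub_self, zero_mul]
  · intro h
    refine ⟨mk (dslope f p) ((Complex.differentiableOn_dslope
      (isOpen_ball.mem_nhds hp)).2 (diff f)), ext fun z hz => ?_⟩
    rw [mul_apply, pt_apply p hz, mk_apply _ hz]
    have := sub_smul_dslope (f : ℂ → ℂ) p z
    rw [h, sub_zero, smul_eq_mul] at this
    exact this.symm

theorem pt_sq_dvd {p : ℂ} (hp : p ∈ ball (0 : ℂ) 1) {f : H} :
    pt p ^ 2 ∣ f ↔ (f : ℂ → ℂ) p = 0 ∧ deriv (f : ℂ → ℂ) p = 0 := by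
  have hnb := isOpen_ball.mem_nhds hp
  constructor
  · rintro ⟨g, rfl⟩
    refine ⟨by rw [mul_apply, pow_apply, pt_apply p hp, sub_self]; ring, ?_⟩
    have h1 : (((pt p ^ 2 * g : H)) : ℂ → ℂ) =ᶠ[𝓝 p] fun z => (z - p) ^ 2 * (g : ℂ → ℂ) z := by
      filter_upwards [hnb] with z hz
      rw [mul_apply, pow_apply, pt_apply p hz]
    rw [h1.deriv_eq]
    have h2 : HasDerivAt (fun z : ℂ => (z - p) ^ 2) (2 * (p - p) ^ 1 * 1) p := by
      have := ((hasDerivAt_id p).sub_const p).fun_pow 2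
      simpa using this
    have h3 := h2.fun_mul (diffAt g hp).hasDerivAt
    rw [h3.deriv]
    simp
  · rintro ⟨h, h'⟩
    obtain ⟨g, hg⟩ := (pt_dvd hp).2 h
    have h1 : ((f : H) : ℂ → ℂ) =ᶠ[𝓝 p] fun z => (z - p) * (g : ℂ → ℂ) z := by
      filter_upwards [hnb] with z hz
      rw [hg, mul_apply, pt_apply p hz]
    rw [h1.deriv_eq] at h'
    have h2 : HasDerivAt (fun z : ℂ => (z - p)) 1 p := (hasDerivAt_id p).sub_const p
    have h4 := (h2.fun_mul (diffAt g hp).hasDerivAt).deriv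
    have h5 : (g : ℂ → ℂ) p = 0 := by
      have h6 : deriv (fun z => (z - p) * (g : ℂ → ℂ) z) p = 1 * (g : ℂ → ℂ) p +
        (p - p) * deriv (g : ℂ → ℂ) p := h4
      rw [h6] at h'
      simpa using h'
    obtain ⟨k, hk⟩ := (pt_dvd hp).2 h5
    exact ⟨k, by rw [hg, hk]; ring⟩

theorem pt_cancel {p : ℂ} (hp : p ∈ ball (0 : ℂ) 1) {x y : H} (h : pt p * x = pt p * y) :
    x = y := by
  have h1 : ∀ z ∈ ball (0 : ℂ) 1, z ≠ p → (x : ℂ → ℂ) z = (y : ℂ → ℂ) z := by
    intro z hz hzp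
    have := congrArg (fun f : H => (f : ℂ → ℂ) z) h
    simp only [mul_apply] at this
    rw [pt_apply p hz] at this
    exact mul_left_cancel₀ (sub_ne_zero.2 hzp) this
  refine ext fun z hz => ?_
  by_cases hzp : z = p
  · subst hzp
    have hx : Tendsto (x : ℂ → ℂ) (𝓝[≠] z) (𝓝 ((x : ℂ → ℂ) z)) :=
      (diffAt x hz).continuousAt.tendsto.mono_left nhdsWithin_le_nhds
    have hy : Tendsto (y : ℂ → ℂ) (𝓝[≠] z) (𝓝 ((y : ℂ → ℂ) z)) :=
      (diffAt y hz).continuousAt.tendsto.mono_left nhdsWithin_le_nhds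
    refine tendsto_nhds_unique hx (hy.congr' ?_)
    filter_upwards [nhdsWithin_le_nhds (isOpen_ball.mem_nhds hz), self_mem_nhdsWithin] with w hw hw'
    exact (h1 w hw hw').symm
  · exact h1 z hz hzp

/-- the irreducible elements correspond to the points of the disc -/
theorem irr_iff {h : H} : Irreducible h ↔ ∃ p ∈ ball (0 : ℂ) 1, Associated (pt p) h := by
  have key : ∀ p ∈ ball (0 : ℂ) 1, ¬ IsUnit (pt p) := by
    intro p hp hu
    exact isUnit_iff.1 hu p hp (by rw [pt_apply p hp, sub_self])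
  constructor
  · intro hi
    have h1 := hi.not_isUnit
    rw [isUnit_iff] at h1
    push Not at h1
    obtain ⟨p, hp, hp0⟩ := h1
    obtain ⟨k, hk⟩ := (pt_dvd hp).2 hp0
    refine ⟨p, hp, ?_⟩
    rcases hi.isUnit_or_isUnit hk with h2 | h2
    · exact absurd h2 (key p hp)
    · exact ⟨h2.unit, by rw [hk]; rfl⟩
  · rintro ⟨p, hp, ha⟩
    rw [← ha.irreducible_iff]
    refine ⟨key p hp, fun a b hab => ?_⟩
    have h0 : (a : ℂ → ℂ) p * (b : ℂ → ℂ) p = 0 := by
      have := congrArg (fun f : H => (f : ℂ → ℂ) p) hab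
      simp only [mul_apply] at this
      rw [← this, pt_apply p hp, sub_self]
    rcases mul_eq_zero.1 h0 with h1 | h1
    · right
      obtain ⟨k, hk⟩ := (pt_dvd hp).2 h1
      rw [hk, mul_assoc] at hab
      have h2 : pt p * 1 = pt p * (k * b) := by rw [mul_one]; exact hab
      have h3 := pt_cancel hp h2
      exact IsUnit.of_mul_eq_one k (by rw [mul_comm]; exact h3.symm)
    · left
      obtain ⟨k, hk⟩ := (pt_dvd hp).2 h1
      rw [hk] at hab
      have h2 : pt p * 1 = pt p * (a * k) := by rw [mul_one]; nth_rewrite 1 [hab]; ring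
      have h3 := pt_cancel hp h2
      exact IsUnit.of_mul_eq_one k h3.symm

end Pool.Agent.W891.HD
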