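import Mathlib
import Pool.Agent.W891.Maj
import Pool.Agent.W891.HD

set_option autoImplicit false
set_option linter.style.haveILetI false
set_option linter.unusedVariables false

/-!
# Zero-free majorants in the ring
-/

namespace Pool.Agent.W891.HD

open Metric Set Filter Topology ComplexConjugate Real InnerProductSpace

/-- the Nevanlinna characteristic -/
noncomputable def Tc (f : ℂ → ℂ) (r : ℝ) : ℝ := circleAverage (fun z => log⁺ ‖f z‖) 0 r

theorem kernel_re_nonneg {R : ℝ} {w ζ : ℂ} (hw : w ∈ ball (0 : ℂ) R) (hζ : ζ ∈ sphere (0 : ℂ) R) :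
    0 ≤ (herglotzRieszKernel 0 w ζ).re := by
  have h := le_re_herglotzRieszKernel hζ hw
  rw [herglotzRieszKernel_def]
  refine le_trans ?_ h
  rw [mem_ball_zero_iff] at hw
  rw [sub_zero]
  apply div_nonneg <;> linarith [norm_nonneg w]

theorem circle_nonneg {g : ℂ → ℝ} {R : ℝ} (h : ∀ z ∈ sphere (0 : ℂ) |R|, 0 ≤ g z) :
    0 ≤ circleAverage g 0 R := by
  unfold circleAverage
  rw [smul_eq_mul]
  apply mul_nonneg (by positivity)
  apply intervalIntegral.integral_nonneg (by positivity)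
  intro θ _
  exact h _ (circleMap_mem_sphere' _ _ _)

theorem exists_radius {f : H} (hf : f ≠ 0) {a b : ℝ} (ha : 0 < a) (hab : a < b) (hb : b < 1) :
    ∃ R, a < R ∧ R < b ∧ ∀ z ∈ sphere (0 : ℂ) R, (f : ℂ → ℂ) z ≠ 0 := by
  have hsub : closedBall (0 : ℂ) b ⊆ ball 0 1 := closedBall_subset_ball hb
  have han : AnalyticOnNhd ℂ (f : ℂ → ℂ) (ball 0 1) := (diff f).analyticOnNhd isOpen_ball
  have hfin : ({z | (f : ℂ → ℂ) z = 0} ∩ closedBall (0 : ℂ) b).Finite := by
    by_contra hinf
    obtain ⟨z, hz, hacc⟩ := Set.Infinite.exists_accPt_of_subset_isCompact hinf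
      (isCompact_closedBall 0 b) inter_subset_right
    have h1 : ∃ᶠ w in 𝓝[≠] z, (f : ℂ → ℂ) w = 0 := by
      rw [accPt_iff_frequently_nhdsNE] at hacc
      exact hacc.mono fun w hw => hw.1
    have h2 := han.eqOn_zero_of_preconnected_of_frequently_eq_zero
      (convex_ball 0 1).isPreconnected (hsub hz) h1
    exact hf (ext fun z hz => h2 hz)
  have h3 : ((fun z : ℂ => ‖z‖) '' ({z | (f : ℂ → ℂ) z = 0} ∩ closedBall (0 : ℂ) b)).Finite :=
    hfin.image _
  obtain ⟨R, hR, hR'⟩ := ((Ioo_infinite hab).sdiff h3).nonempty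
  refine ⟨R, hR.1, hR.2, fun z hz h0 => hR' ⟨z, ⟨h0, ?_⟩, ?_⟩⟩
  · rw [mem_sphere_zero_iff_norm] at hz
    rw [mem_closedBall_zero_iff, hz]
    exact hR.2.le
  · simpa using hz

theorem pj {f : ℂ → ℂ} {R : ℝ} (hR : 0 < R) (hf : AnalyticOnNhd ℂ f (closedBall 0 R))
    (hne : ∀ z ∈ sphere (0 : ℂ) R, f z ≠ 0) {w : ℂ} (hw : w ∈ ball (0 : ℂ) R) (hfw : f w ≠ 0) :
    Real.log ‖f w‖ ≤ circleAverage ((Complex.re ∘ herglotzRieszKernel 0 w) •
      (fun z => log⁺ ‖f z‖)) 0 R := by
  obtain ⟨g, hg, hg0, hfg, hfg'⟩ := dominate hR hf hne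
  have hharm : HarmonicOnNhd (fun z => Real.log ‖g z‖) (closedBall 0 R) := fun x hx =>
    (hg x hx).harmonicAt_log_norm (hg0 x hx)
  have h1 := HarmonicOnNhd.circleAverage_re_herglotzRieszKernel_smul hharm hw
  have hw' := ball_subset_closedBall hw
  calc Real.log ‖f w‖ ≤ Real.log ‖g w‖ := Real.log_le_log (norm_pos_iff.2 hfw) (hfg w hw')
    _ = circleAverage ((Complex.re ∘ herglotzRieszKernel 0 w) • fun z => Real.log ‖g z‖) 0 R :=
      h1.symm
    _ ≤ _ := by
      have hK : ContinuousOn (Complex.re ∘ herglotzRieszKernel 0 w) (sphere (0 : ℂ) |R|) :=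
        Complex.continuous_re.comp_continuousOn (continuousOn_herglotzRieszKernel_sphere hw)
      apply circleAverage_mono
      · apply ContinuousOn.circleIntegrable'
        refine hK.smul ?_
        rw [abs_of_pos hR]
        intro z hz
        have hz' := sphere_subset_closedBall hz
        exact ((hg z hz').continuousAt.norm.log (norm_ne_zero_iff.2
          (hg0 z hz'))).continuousWithinAt
      · apply ContinuousOn.circleIntegrable'
        refine hK.smul ?_
        rw [abs_of_pos hR]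
        exact continuous_posLog.comp_continuousOn
          ((hf.continuousOn.mono sphere_subset_closedBall).norm)
      · intro z hz
        rw [abs_of_pos hR] at hz
        simp only [Pi.smul_apply', Function.comp_apply, smul_eq_mul]
        rw [hfg' z hz]
        refine mul_le_mul_of_nonneg_left ?_ (kernel_re_nonneg hw hz)
        rw [posLog_apply]
        exact le_max_right _ _

theorem majorant (f : H) {r : ℝ} (hr0 : 0 < r) (hr1 : r < 1) :
    ∃ R, r < R ∧ R < (1 + r) / 2 ∧ ∃ G : H, IsUnit G ∧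
      (∀ z ∈ ball (0 : ℂ) 1, 1 ≤ ‖(G : ℂ → ℂ) z‖) ∧
      (∀ z ∈ ball (0 : ℂ) 1, ‖(f : ℂ → ℂ) (r * z)‖ ≤ ‖(G : ℂ → ℂ) z‖) ∧
      ‖(G : ℂ → ℂ) 0‖ = Real.exp (Tc (f : ℂ → ℂ) R) := by
  by_cases hf0 : f = 0
  · subst hf0
    refine ⟨r + (1 - r) / 4, by linarith, by linarith, 1, isUnit_one, fun z _ => by simp,
      fun z _ => by simp, ?_⟩
    have : Tc ((0 : H) : ℂ → ℂ) (r + (1 - r) / 4) = 0 := by
      unfold Tc
      simp only [zero_apply, norm_zero, posLog_zero]
      exact circleAverage_const _ _ _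
    rw [this]
    simp
  · obtain ⟨R, hR1, hR2, hR3⟩ := exists_radius hf0 hr0 (show r < (1 + r) / 2 by linarith)
      (by linarith)
    have hR0 : 0 < R := by linarith
    have hRlt : R < 1 := by linarith
    have hsub : closedBall (0 : ℂ) R ⊆ ball 0 1 := closedBall_subset_ball hRlt
    have han : AnalyticOnNhd ℂ (f : ℂ → ℂ) (closedBall 0 R) :=
      ((diff f).analyticOnNhd isOpen_ball).mono hsub
    set p : ℂ → ℝ := fun z => log⁺ ‖(f : ℂ → ℂ) z‖ with hp
    have hpc : ContinuousOn p (sphere (0 : ℂ) |R|) := by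
      rw [abs_of_pos hR0]
      exact continuous_posLog.comp_continuousOn
        ((han.continuousOn.mono sphere_subset_closedBall).norm)
    have hpi : CircleIntegrable p 0 R := hpc.circleIntegrable'
    have hpi' : CircleIntegrable (fun z => (p z : ℂ)) 0 R :=
      (Complex.continuous_ofReal.comp_continuousOn hpc).circleIntegrable'
    have hd := differentiableOn_circleAverage_herglotzRieszKernel_smul hpi'
    set Hz : ℂ → ℂ := fun w => circleAverage (fun ζ ↦ herglotzRieszKernel 0 w ζ • (p ζ : ℂ)) 0 R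
      with hHz
    have hmaps : ∀ z ∈ ball (0 : ℂ) 1, (r : ℂ) * z ∈ ball (0 : ℂ) R := by
      intro z hz
      rw [mem_ball_zero_iff] at hz ⊢
      rw [norm_mul, Complex.norm_real, Real.norm_eq_abs, abs_of_pos hr0]
      nlinarith [norm_nonneg z]
    have hre : ∀ w ∈ ball (0 : ℂ) R, (Hz w).re =
        circleAverage ((Complex.re ∘ herglotzRieszKernel 0 w) • p) 0 R := fun w hw =>
      re_circleAverage_herglotzRieszKernel_smul hpi hw
    have hGd : DifferentiableOn ℂ (fun z => Complex.exp (Hz (r * z))) (ball 0 1) :=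
      (hd.comp (by fun_prop : DifferentiableOn ℂ (fun z : ℂ => (r : ℂ) * z) (ball 0 1))
        hmaps).cexp
    have hnorm : ∀ z ∈ ball (0 : ℂ) 1, ‖(mk _ hGd : ℂ → ℂ) z‖ = Real.exp ((Hz (r * z)).re) := by
      intro z hz
      rw [mk_apply _ hz, Complex.norm_exp]
    refine ⟨R, hR1, hR2, mk _ hGd, isUnit_iff.2 fun z hz => ?_, fun z hz => ?_, fun z hz => ?_, ?_⟩
    · rw [mk_apply _ hz]
      exact Complex.exp_ne_zero _
    · rw [hnorm z hz, hre _ (hmaps z hz)]
      apply Real.one_le_exp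
      apply circle_nonneg
      intro ζ hζ
      rw [abs_of_pos hR0] at hζ
      exact mul_nonneg (kernel_re_nonneg (hmaps z hz) hζ) posLog_nonneg
    · rw [hnorm z hz, hre _ (hmaps z hz)]
      by_cases h0 : (f : ℂ → ℂ) (r * z) = 0
      · rw [h0, norm_zero]
        exact (Real.exp_pos _).le
      · rw [← Real.log_le_iff_le_exp (norm_pos_iff.2 h0)]
        exact pj hR0 han hR3 (hmaps z hz) h0
    · rw [hnorm 0 zero_mem, hre _ (hmaps 0 zero_mem)]
      congr 1
      unfold Tc
      apply circleAverage_congr_sphere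
      intro ζ hζ
      rw [abs_of_pos hR0, mem_sphere_zero_iff_norm] at hζ
      have hζ0 : ζ ≠ 0 := by
        intro h; rw [h, norm_zero] at hζ; linarith
      simp only [Pi.smul_apply', Function.comp_apply, smul_eq_mul, herglotzRieszKernel_def,
        mul_zero, sub_zero, add_zero, div_self hζ0, Complex.one_re, one_mul, hp]

end Pool.Agent.W891.HD
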