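import Mathlib
import Pool.Agent.W891.Maj2

set_option autoImplicit false
set_option linter.style.haveILetI false
set_option linter.unusedVariables false

/-!
# Functions of logarithmic growth: from the growth bound to the majorants
-/

namespace Pool.Agent.W891.HD

open Metric Set Filter Topology ComplexConjugate Real

/-- conformal coordinates -/
structure Coord (u : H) : Prop where
  maps : ∀ p ∈ ball (0 : ℂ) 1, (u : ℂ → ℂ) p ∈ ball (0 : ℂ) 1
  surj : ∀ w ∈ ball (0 : ℂ) 1, ∃ p ∈ ball (0 : ℂ) 1, (u : ℂ → ℂ) p = w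
  inj : ∀ p ∈ ball (0 : ℂ) 1, ∀ q ∈ ball (0 : ℂ) 1, (u : ℂ → ℂ) p = (u : ℂ → ℂ) q → p = q
  der : ∀ p ∈ ball (0 : ℂ) 1, deriv (u : ℂ → ℂ) p ≠ 0

/-- `E`, as a function of `1 - u`, is multiplicative -/
def Mult (u E : H) : Prop := ∀ p₁ ∈ ball (0 : ℂ) 1, ∀ p₂ ∈ ball (0 : ℂ) 1, ∀ p₃ ∈ ball (0 : ℂ) 1,
  1 - (u : ℂ → ℂ) p₃ = (1 - (u : ℂ → ℂ) p₁) * (1 - (u : ℂ → ℂ) p₂) →
    (E : ℂ → ℂ) p₃ = (E : ℂ → ℂ) p₁ * (E : ℂ → ℂ) p₂

/-- a majorant for the radius `r` -/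
def Majo (f u E : H) (r : ℝ) : Prop := ∃ G : H, IsUnit G ∧
  (∀ q ∈ ball (0 : ℂ) 1, 1 ≤ ‖(G : ℂ → ℂ) q‖) ∧
  (∀ p ∈ ball (0 : ℂ) 1, ∀ q ∈ ball (0 : ℂ) 1, (u : ℂ → ℂ) p = r * (u : ℂ → ℂ) q →
    ‖(f : ℂ → ℂ) p‖ ≤ ‖(G : ℂ → ℂ) q‖) ∧
  (∀ p ∈ ball (0 : ℂ) 1, ∀ q ∈ ball (0 : ℂ) 1, (u : ℂ → ℂ) q = 0 → (u : ℂ → ℂ) p = r →
    ‖(G : ℂ → ℂ) q‖ ≤ ‖(E : ℂ → ℂ) p‖)

/-- existence of majorants -/
def Bd (f : H) : Prop := ∃ u E : H, Coord u ∧ Mult u E ∧ ∃ ρ : ℂ, ρ ∈ ball (0 : ℂ) 1 ∧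
  ∀ s : ℝ, ‖ρ‖ < s * s → s * s < 1 → Majo f u E (s * s)

theorem coord_id : Coord (mk id differentiableOn_id) where
  maps p hp := by rw [mk_apply _ hp]; exact hp
  surj w hw := ⟨w, hw, by rw [mk_apply _ hw]; rfl⟩
  inj p hp q hq h := by
    rw [mk_apply _ hp, mk_apply _ hq] at h
    exact h
  der p hp := by
    have : (mk id differentiableOn_id : ℂ → ℂ) =ᶠ[𝓝 p] id := by
      filter_upwards [isOpen_ball.mem_nhds hp] with z hz
      rw [mk_apply _ hz]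
    rw [this.deriv_eq]
    simp

theorem re_pos {z : ℂ} (hz : z ∈ ball (0 : ℂ) 1) : 0 < (1 - z).re := by
  have h1 := Complex.abs_re_le_norm z
  rw [mem_ball_zero_iff] at hz
  rw [Complex.sub_re, Complex.one_re]
  linarith [le_abs_self z.re]

theorem logE (A : ℝ) : DifferentiableOn ℂ (fun z : ℂ => Complex.exp (-A * Complex.log (1 - z)))
    (ball 0 1) := by
  apply DifferentiableOn.cexp
  apply DifferentiableOn.const_mul
  apply DifferentiableOn.clog (by fun_prop)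
  intro z hz
  exact Or.inl (re_pos hz)

theorem mult_logE (A : ℝ) : Mult (mk id differentiableOn_id) (mk _ (logE A)) := by
  intro p₁ h₁ p₂ h₂ p₃ h₃ h
  rw [mk_apply _ h₁, mk_apply _ h₂, mk_apply _ h₃] at h ⊢
  simp only [id] at h
  have e1 := Complex.abs_arg_lt_pi_div_two_iff.2 (Or.inl (re_pos h₁))
  have e2 := Complex.abs_arg_lt_pi_div_two_iff.2 (Or.inl (re_pos h₂))
  rw [abs_lt] at e1 e2
  have h0 : ∀ {z : ℂ}, z ∈ ball (0 : ℂ) 1 → 1 - z ≠ 0 := by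
    intro z hz h
    have := re_pos hz
    rw [h] at this
    simp at this
  have h4 : Complex.log (1 - p₃) = Complex.log (1 - p₁) + Complex.log (1 - p₂) := by
    rw [h]
    apply Complex.log_mul (h0 h₁) (h0 h₂)
    constructor <;> linarith [e1.1, e1.2, e2.1, e2.2]
  rw [h4, ← Complex.exp_add]
  congr 1
  ring

theorem bd_of_isBigO {f : H} (h : (fun r : ℝ => Tc (f : ℂ → ℂ) r) =O[𝓝[<] 1]
    fun r : ℝ => Real.log (1 - r)⁻¹) : Bd f := by
  obtain ⟨C, hC0, hC⟩ := h.exists_nonneg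
  rw [Asymptotics.isBigOWith_iff] at hC
  obtain ⟨a, ha, haC⟩ := (mem_nhdsLT_iff_exists_Ioo_subset).1 hC
  have ha1 : a < 1 := ha
  set ρ : ℝ := max a (1 / 2) with hρ
  have hρ1 : ρ < 1 := max_lt ha1 (by norm_num)
  have hρ0 : 1 / 2 ≤ ρ := le_max_right _ _
  have hρa : a ≤ ρ := le_max_left _ _
  refine ⟨mk id differentiableOn_id, mk _ (logE (2 * C)), coord_id, mult_logE _, (ρ : ℂ), ?_, ?_⟩
  · rw [mem_ball_zero_iff, Complex.norm_real, Real.norm_eq_abs, abs_of_pos (by linarith)]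
    exact hρ1
  · intro s hs1 hs2
    rw [Complex.norm_real, Real.norm_eq_abs, abs_of_pos (by linarith)] at hs1
    set r := s * s with hr
    obtain ⟨R, hR1, hR2, G, hG0, hG1, hG2, hG3⟩ := majorant f (show 0 < r by linarith) hs2
    refine ⟨G, hG0, hG1, ?_, ?_⟩
    · intro p hp q hq hpq
      rw [mk_apply _ hp, mk_apply _ hq] at hpq
      simp only [id] at hpq
      rw [hpq]
      exact hG2 q hq
    · intro p hp q hq hq0 hpr
      rw [mk_apply _ hq] at hq0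
      rw [mk_apply _ hp] at hpr
      simp only [id] at hq0 hpr
      rw [hq0, hG3, mk_apply _ hp, Complex.norm_exp, hpr]
      apply Real.exp_le_exp.2
      have hR := haC (show R ∈ Ioo a 1 from ⟨by linarith, by linarith⟩)
      simp only [Set.mem_ofPred_eq] at hR
      have e1 : (1 : ℂ) - ((r : ℝ) : ℂ) = ((1 - r : ℝ) : ℂ) := by push_cast; ring
      rw [e1, ← Complex.ofReal_log (by linarith)]
      have e2 : (-((2 * C : ℝ) : ℂ) * ((Real.log (1 - r) : ℝ) : ℂ)).re =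
          2 * C * (-Real.log (1 - r)) := by
        rw [← Complex.ofReal_neg, ← Complex.ofReal_mul, Complex.ofReal_re]; ring
      rw [e2]
      have h5 : 0 < 1 - R := by linarith
      have h6 : 0 < 1 - r := by linarith
      have h7 : Real.log (1 - R)⁻¹ ≤ 2 * (-Real.log (1 - r)) := by
        rw [Real.log_inv]
        have h8 : (1 - r) ^ 2 ≤ 1 - R := by nlinarith
        have h9 := Real.log_le_log (by positivity) h8
        rw [Real.log_pow] at h9
        push_cast at h9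
        linarith
      have h10 : 0 ≤ Real.log (1 - R)⁻¹ := by
        rw [Real.log_inv]
        have := Real.log_nonpos h5.le (by linarith)
        linarith
      calc Tc (f : ℂ → ℂ) R ≤ ‖Tc (f : ℂ → ℂ) R‖ := le_abs_self _
        _ ≤ C * ‖Real.log (1 - R)⁻¹‖ := hR
        _ = C * Real.log (1 - R)⁻¹ := by rw [Real.norm_eq_abs, abs_of_nonneg h10]
        _ ≤ C * (2 * (-Real.log (1 - r))) := by gcongr
        _ = 2 * C * (-Real.log (1 - r)) := by ring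

end Pool.Agent.W891.HD
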