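import Mathlib
import Pool.Agent.W891.HD
import Pool.Agent.Lev.J_schottky

set_option autoImplicit false
set_option linter.style.haveILetI false
set_option linter.unusedVariables false

/-!
# Constants are definable in the ring of holomorphic functions on the disc

For `a ≠ 0, 1` the set of the derivatives `F'(p)` of the functions `F` omitting `0` and `1` with
`F(p) = a` is bounded (Landau) and symmetric about `0`; so `0` is its only centre of symmetry and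
the condition `f'(p) = 0` is definable.
-/

namespace Pool.Agent.W891.HD

open Metric Set Filter Topology ComplexConjugate

theorem landau {p : ℂ} (hp : p ∈ ball (0 : ℂ) 1) (a : ℂ) :
    ∃ B : ℝ, ∀ F : H, IsUnit F → IsUnit (F - 1) → (F : ℂ → ℂ) p = a →
      ‖deriv (F : ℂ → ℂ) p‖ ≤ B := by
  obtain ⟨C, hC⟩ := Pool.Agent.Lev.J_schottky.main ‖a‖
  obtain ⟨r, hr, hsub⟩ := Metric.isOpen_iff.1 isOpen_ball p hp
  refine ⟨C / (r / 4), fun F h0 h1 hF => ?_⟩
  rw [isUnit_iff] at h0 h1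
  have hb := hC (F : ℂ → ℂ) p r hr ((diff F).mono hsub)
    (fun z hz => ⟨h0 z (hsub hz), fun h => h1 z (hsub hz) (by simp [h])⟩) (by rw [hF])
  refine Complex.norm_deriv_le_of_forall_mem_sphere_norm_le (by positivity) ?_ ?_
  · apply DifferentiableOn.diffContOnCl
    refine (diff F).mono ((closure_ball_subset_closedBall).trans ?_)
    exact (closedBall_subset_ball (by linarith)).trans hsub
  · intro z hz
    apply hb
    rw [mem_sphere] at hz
    rw [mem_ball, hz]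
    linarith

/-- the involution exchanging `0` and `p` -/
noncomputable def psi (p z : ℂ) : ℂ := (p - z) / (1 - conj p * z)

theorem psi_den {p z : ℂ} (hp : p ∈ ball (0 : ℂ) 1) (hz : z ∈ ball (0 : ℂ) 1) :
    1 - conj p * z ≠ 0 := by
  intro h
  have h1 : ‖conj p * z‖ = 1 := by rw [← sub_eq_zero.1 h]; simp
  rw [norm_mul, RCLike.norm_conj] at h1
  rw [mem_ball_zero_iff] at hp hz
  nlinarith [norm_nonneg p, norm_nonneg z]

theorem norm_den_sq (p z : ℂ) :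
    ‖1 - conj p * z‖ ^ 2 - ‖p - z‖ ^ 2 = (1 - ‖p‖ ^ 2) * (1 - ‖z‖ ^ 2) := by
  have h : ∀ w : ℂ, ‖w‖ ^ 2 = w.re ^ 2 + w.im ^ 2 := fun w => by
    rw [← Complex.normSq_eq_norm_sq, Complex.normSq_apply]; ring
  simp only [h, Complex.sub_re, Complex.sub_im, Complex.mul_re, Complex.mul_im, Complex.conj_re,
    Complex.conj_im, Complex.one_re, Complex.one_im]
  ring

theorem psi_mem {p z : ℂ} (hp : p ∈ ball (0 : ℂ) 1) (hz : z ∈ ball (0 : ℂ) 1) :
    psi p z ∈ ball (0 : ℂ) 1 := by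
  have hd := psi_den hp hz
  rw [mem_ball_zero_iff, psi, norm_div, div_lt_one (norm_pos_iff.2 hd)]
  have h1 := norm_den_sq p z
  rw [mem_ball_zero_iff] at hp hz
  have h2 : 0 < (1 - ‖p‖ ^ 2) * (1 - ‖z‖ ^ 2) := by
    apply mul_pos <;> nlinarith [norm_nonneg p, norm_nonneg z]
  exact lt_of_pow_lt_pow_left₀ 2 (norm_nonneg _) (by linarith)

theorem psi_deriv {p z : ℂ} (hp : p ∈ ball (0 : ℂ) 1) (hz : z ∈ ball (0 : ℂ) 1) :
    HasDerivAt (psi p) ((conj p * p - 1) / (1 - conj p * z) ^ 2) z := by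
  have hd := psi_den hp hz
  have h1 : HasDerivAt (fun z : ℂ => p - z) (-1) z := by
    simpa using (hasDerivAt_id z).const_sub p
  have h2 : HasDerivAt (fun z : ℂ => 1 - conj p * z) (-conj p) z := by
    simpa using ((hasDerivAt_id z).const_mul (conj p)).const_sub 1
  have h3 := h1.fun_div h2 hd
  have h4 : (-1 * (1 - conj p * z) - (p - z) * -conj p) / (1 - conj p * z) ^ 2 =
      (conj p * p - 1) / (1 - conj p * z) ^ 2 := by
    congr 1; ring
  rw [h4] at h3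
  exact h3

theorem flip {p : ℂ} (hp : p ∈ ball (0 : ℂ) 1) {F : H} (h0 : IsUnit F) (h1 : IsUnit (F - 1)) :
    ∃ G : H, IsUnit G ∧ IsUnit (G - 1) ∧ (G : ℂ → ℂ) p = (F : ℂ → ℂ) p ∧
      deriv (G : ℂ → ℂ) p = -deriv (F : ℂ → ℂ) p := by
  rw [isUnit_iff] at h0 h1
  have hm : ∀ z ∈ ball (0 : ℂ) 1, psi p (-psi p z) ∈ ball (0 : ℂ) 1 := fun z hz =>
    psi_mem hp (by
      have := psi_mem hp hz
      rw [mem_ball_zero_iff] at this ⊢
      rwa [norm_neg])
  have hm' : ∀ z ∈ ball (0 : ℂ) 1, -psi p z ∈ ball (0 : ℂ) 1 := fun z hz => by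
    have := psi_mem hp hz
    rw [mem_ball_zero_iff] at this ⊢
    rwa [norm_neg]
  have hpp : psi p p = 0 := by simp [psi]
  have hp0 : psi p 0 = p := by simp [psi]
  have hd : ∀ z ∈ ball (0 : ℂ) 1, HasDerivAt (fun z => psi p (-psi p z))
      ((conj p * p - 1) / (1 - conj p * (-psi p z)) ^ 2 *
        (-((conj p * p - 1) / (1 - conj p * z) ^ 2))) z := fun z hz =>
    HasDerivAt.comp z (h := fun z => -psi p z) (psi_deriv hp (hm' z hz)) (psi_deriv hp hz).fun_neg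
  have hdF : ∀ z ∈ ball (0 : ℂ) 1, HasDerivAt (fun z => (F : ℂ → ℂ) (psi p (-psi p z)))
      (deriv (F : ℂ → ℂ) (psi p (-psi p z)) * ((conj p * p - 1) / (1 - conj p * (-psi p z)) ^ 2 *
        (-((conj p * p - 1) / (1 - conj p * z) ^ 2)))) z := fun z hz =>
    (diffAt F (hm z hz)).hasDerivAt.comp z (hd z hz)
  have hdiff : DifferentiableOn ℂ (fun z => (F : ℂ → ℂ) (psi p (-psi p z))) (ball 0 1) :=
    fun z hz => (hdF z hz).differentiableAt.differentiableWithinAt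
  refine ⟨mk _ hdiff, isUnit_iff.2 fun z hz => ?_, isUnit_iff.2 fun z hz => ?_, ?_, ?_⟩
  · rw [mk_apply _ hz]
    exact h0 _ (hm z hz)
  · rw [sub_apply, mk_apply _ hz]
    exact h1 _ (hm z hz)
  · rw [mk_apply _ hp, hpp, neg_zero, hp0]
  · have he : (mk _ hdiff : ℂ → ℂ) =ᶠ[𝓝 p] (fun z => (F : ℂ → ℂ) (psi p (-psi p z))) := by
      filter_upwards [isOpen_ball.mem_nhds hp] with z hz
      rw [mk_apply _ hz]
    rw [he.deriv_eq, (hdF p hp).deriv, hpp, neg_zero, hp0]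
    have hne := psi_den hp hp
    have hne' : conj p * p - 1 ≠ 0 := fun h => hne (by linear_combination -h)
    have h5 : (1 - conj p * p) ^ 2 = (conj p * p - 1) ^ 2 := by ring
    rw [mul_zero, sub_zero, one_pow, div_one, h5]
    field_simp

/-- being a constant -/
def K (f : H) : Prop := ∃ c : ℂ, f = con c

/-- the formula -/
def KF (f : H) : Prop := ∀ h, Irreducible h → ¬ h ∣ f → ¬ h ∣ f - 1 → ∀ y, h ∣ y - f →
  ((∃ F, (IsUnit F ∧ IsUnit (F - 1)) ∧ h ^ 2 ∣ F - y) ↔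
    (∃ F, (IsUnit F ∧ IsUnit (F - 1)) ∧ h ^ 2 ∣ F - (2 * f - y)))

theorem deriv_sub' {f g : H} {p : ℂ} (hp : p ∈ ball (0 : ℂ) 1) :
    deriv ((f - g : H) : ℂ → ℂ) p = deriv (f : ℂ → ℂ) p - deriv (g : ℂ → ℂ) p :=
  deriv_sub (diffAt f hp) (diffAt g hp)

theorem deriv_add' {f g : H} {p : ℂ} (hp : p ∈ ball (0 : ℂ) 1) :
    deriv ((f + g : H) : ℂ → ℂ) p = deriv (f : ℂ → ℂ) p + deriv (g : ℂ → ℂ) p :=
  deriv_add (diffAt f hp) (diffAt g hp)

theorem sq_dvd_sub {f g : H} {p : ℂ} (hp : p ∈ ball (0 : ℂ) 1) : pt p ^ 2 ∣ f - g ↔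
    (f : ℂ → ℂ) p = (g : ℂ → ℂ) p ∧ deriv (f : ℂ → ℂ) p = deriv (g : ℂ → ℂ) p := by
  rw [pt_sq_dvd hp, sub_apply, deriv_sub' hp, sub_eq_zero, sub_eq_zero]

theorem dvd_sub_iff {f g : H} {p : ℂ} (hp : p ∈ ball (0 : ℂ) 1) : pt p ∣ f - g ↔
    (f : ℂ → ℂ) p = (g : ℂ → ℂ) p := by
  rw [pt_dvd hp, sub_apply, sub_eq_zero]

theorem deriv_two_sub {f y : H} {p : ℂ} (hp : p ∈ ball (0 : ℂ) 1) :
    deriv ((2 * f - y : H) : ℂ → ℂ) p = 2 * deriv (f : ℂ → ℂ) p - deriv (y : ℂ → ℂ) p := by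
  rw [two_mul, deriv_sub' hp, deriv_add' hp, two_mul]

theorem const_of_deriv {f : H} (h : ∀ p ∈ ball (0 : ℂ) 1, (f : ℂ → ℂ) p ≠ 0 →
    (f : ℂ → ℂ) p ≠ 1 → deriv (f : ℂ → ℂ) p = 0) : K f := by
  have hU : IsPreconnected (ball (0 : ℂ) 1) := (convex_ball 0 1).isPreconnected
  have hf : AnalyticOnNhd ℂ (f : ℂ → ℂ) (ball 0 1) := (diff f).analyticOnNhd isOpen_ball
  have hf1 : AnalyticOnNhd ℂ ((f - 1 : H) : ℂ → ℂ) (ball 0 1) :=
    (diff (f - 1)).analyticOnNhd isOpen_ball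
  have h1 : ∀ z ∈ ball (0 : ℂ) 1, (f : ℂ → ℂ) z * (((f - 1 : H) : ℂ → ℂ) z *
      deriv (f : ℂ → ℂ) z) = 0 := by
    intro z hz
    by_cases h0 : (f : ℂ → ℂ) z = 0
    · rw [h0, zero_mul]
    by_cases h1 : (f : ℂ → ℂ) z = 1
    · rw [sub_apply, one_apply, h1, sub_self, zero_mul, mul_zero]
    · rw [h z hz h0 h1, mul_zero, mul_zero]
  rcases AnalyticOnNhd.eq_zero_or_eq_zero_of_mul_eq_zero hf (hf1.mul hf.deriv) h1 hU with h2 | h2
  · exact ⟨0, ext fun z hz => by rw [con_apply, h2 z hz]⟩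
  · rcases AnalyticOnNhd.eq_zero_or_eq_zero_of_mul_eq_zero hf1 hf.deriv h2 hU with h3 | h3
    · exact ⟨1, ext fun z hz => by
        rw [con_apply]
        exact sub_eq_zero.1 (by simpa using h3 z hz)⟩
    · obtain ⟨a, ha⟩ := isOpen_ball.exists_is_const_of_deriv_eq_zero hU (diff f)
        (fun z hz => h3 z hz)
      exact ⟨a, ext fun z hz => by rw [con_apply, ha z hz]⟩

theorem KF_iff (f : H) : KF f ↔ K f := by
  constructor
  · intro h
    apply const_of_deriv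
    intro p hp h0 h1
    by_contra hne
    have hi : Irreducible (pt p) := irr_iff.2 ⟨p, hp, Associated.refl _⟩
    have hh := h (pt p) hi (by rwa [pt_dvd hp]) (by
      rw [dvd_sub_iff hp]; simpa using h1)
    -- the set of derivatives
    set B : Set ℂ := {b | ∃ F : H, (IsUnit F ∧ IsUnit (F - 1)) ∧ (F : ℂ → ℂ) p = (f : ℂ → ℂ) p ∧
      deriv (F : ℂ → ℂ) p = b} with hB
    have hflip : ∀ b ∈ B, -b ∈ B := by
      rintro b ⟨F, ⟨hF0, hF1⟩, hF2, hF3⟩
      obtain ⟨G, hG0, hG1, hG2, hG3⟩ := flip hp hF0 hF1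
      exact ⟨G, ⟨hG0, hG1⟩, hG2.trans hF2, by rw [hG3, hF3]⟩
    have hzero : (0 : ℂ) ∈ B := by
      refine ⟨con ((f : ℂ → ℂ) p), ⟨isUnit_iff.2 fun z hz => by rw [con_apply]; exact h0,
        isUnit_iff.2 fun z hz => ?_⟩, by simp, ?_⟩
      · rw [sub_apply, con_apply, one_apply]
        exact sub_ne_zero.2 h1
      · have : ((con ((f : ℂ → ℂ) p) : H) : ℂ → ℂ) = fun _ => (f : ℂ → ℂ) p := by
          funext z; simp
        rw [this]
        simp
    have hrefl : ∀ b ∈ B, 2 * deriv (f : ℂ → ℂ) p - b ∈ B := by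
      rintro b ⟨F, hF01, hF2, hF3⟩
      have h3 := (hh F (by rw [dvd_sub_iff hp]; exact hF2)).1 ⟨F, hF01, by simp⟩
      obtain ⟨G, hG01, hG⟩ := h3
      rw [sq_dvd_sub hp, deriv_two_sub hp] at hG
      refine ⟨G, hG01, ?_, by rw [hG.2, hF3]⟩
      rw [hG.1, sub_apply, mul_apply, two_apply, hF2]
      ring
    have hn : ∀ n : ℕ, -(n * (2 * deriv (f : ℂ → ℂ) p)) ∈ B := by
      intro n
      induction n with
      | zero => simpa using hzero
      | succ n ih =>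
        have := hflip _ (hrefl _ ih)
        convert this using 1
        push_cast
        ring
    obtain ⟨C, hC⟩ := landau hp ((f : ℂ → ℂ) p)
    have hC' : ∀ b ∈ B, ‖b‖ ≤ C := by
      rintro b ⟨F, ⟨hF0, hF1⟩, hF2, hF3⟩
      rw [← hF3]
      exact hC F hF0 hF1 hF2
    obtain ⟨n, hn'⟩ := exists_nat_gt (C / ‖2 * deriv (f : ℂ → ℂ) p‖)
    have h2 : 0 < ‖2 * deriv (f : ℂ → ℂ) p‖ := norm_pos_iff.2 (mul_ne_zero two_ne_zero hne)
    rw [div_lt_iff₀ h2] at hn'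
    have := hC' _ (hn n)
    rw [norm_neg, norm_mul, Complex.norm_natCast] at this
    linarith
  · rintro ⟨c, rfl⟩ h hh _ _ y hy
    obtain ⟨p, hp, ha⟩ := irr_iff.1 hh
    have ha2 : Associated (pt p ^ 2) (h ^ 2) := ha.pow_pow
    have hd : deriv ((con c : H) : ℂ → ℂ) p = 0 := by
      have : ((con c : H) : ℂ → ℂ) = fun _ => c := by
        funext z; simp
      rw [this]
      simp
    rw [← ha.dvd_iff_dvd_left, dvd_sub_iff hp, con_apply] at hy
    simp only [← ha2.dvd_iff_dvd_left, sq_dvd_sub hp, deriv_two_sub hp, hd, mul_zero, zero_sub]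
    constructor
    · rintro ⟨F, ⟨hF0, hF1⟩, hF2, hF3⟩
      obtain ⟨G, hG0, hG1, hG2, hG3⟩ := flip hp hF0 hF1
      refine ⟨G, ⟨hG0, hG1⟩, ?_, by rw [hG3, hF3]⟩
      rw [hG2, hF2, sub_apply, mul_apply, two_apply, con_apply, hy]
      ring
    · rintro ⟨F, ⟨hF0, hF1⟩, hF2, hF3⟩
      obtain ⟨G, hG0, hG1, hG2, hG3⟩ := flip hp hF0 hF1
      refine ⟨G, ⟨hG0, hG1⟩, ?_, by rw [hG3, hF3, neg_neg]⟩
      rw [hG2, hF2, sub_apply, mul_apply, two_apply, con_apply, hy]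
      ring

open Fo in
theorem D1_irr : D1 (fun h : H => Irreducible h) := by
  refine D.congr (P := fun v : ℕ → H => ¬ IsUnit (v 0) ∧
    ∀ a, ∀ b, v 0 = a * b → (IsUnit a ∨ IsUnit b)) ?_ fun v => ?_
  · exact (D.unit (T.var 0)).not.and (D.all (D.all ((D.eq (T.var 2) ((T.var 1).mul (T.var 0))).imp
      ((D.unit (T.var 1)).or (D.unit (T.var 0))))))
  · beta_reduce
    rw [irreducible_iff]

open Fo in
theorem D1_K : D1 K := by
  refine D.congr (P := fun v : ℕ → H => KF (v 0)) ?_ fun v => KF_iff _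
  unfold KF
  refine D.all ((D1_irr.app (T.var 0)).imp ((D.dvd (T.var 0) (T.var 1)).not.imp
    ((D.dvd (T.var 0) ((T.var 1).sub T.one)).not.imp (D.all ((D.dvd (T.var 1)
      ((T.var 0).sub (T.var 2))).imp (D.iff (D.ex ?_) (D.ex ?_)))))))
  · exact ((D.unit (T.var 0)).and (D.unit ((T.var 0).sub T.one))).and
      (D.dvd ((T.var 2).pow 2) ((T.var 0).sub (T.var 1)))
  · exact ((D.unit (T.var 0)).and (D.unit ((T.var 0).sub T.one))).and
      (D.dvd ((T.var 2).pow 2) ((T.var 0).sub ((T.two.mul (T.var 3)).sub (T.var 1))))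

end Pool.Agent.W891.HD
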