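import Mathlib
import Pool.Agent.W891.BdA
import Pool.Agent.W891.Const

set_option autoImplicit false
set_option linter.style.haveILetI false
set_option linter.unusedVariables false

/-!
# Functions of logarithmic growth: from the majorants to the growth bound
-/

namespace Pool.Agent.W891.HD

open Metric Set Filter Topology ComplexConjugate Real InnerProductSpace

theorem coord_inverse {u : H} (hu : Coord u) : ∃ v : ℂ → ℂ,
    (∀ w ∈ ball (0 : ℂ) 1, v w ∈ ball (0 : ℂ) 1 ∧ (u : ℂ → ℂ) (v w) = w) ∧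
      DifferentiableOn ℂ v (ball 0 1) := by
  choose! v hv hv' using hu.surj
  refine ⟨v, fun w hw => ⟨hv w hw, hv' w hw⟩, ?_⟩
  intro w hw
  have hcont : ContinuousAt v w := by
    intro s hs
    obtain ⟨t, ht, hto, htw⟩ := _root_.mem_nhds_iff.1 (inter_mem hs (isOpen_ball.mem_nhds (hv w hw)))
    have hopen : IsOpen ((u : ℂ → ℂ) '' t) := by
      have ha : AnalyticOnNhd ℂ (u : ℂ → ℂ) (ball 0 1) := (diff u).analyticOnNhd isOpen_ball
      rcases ha.is_constant_or_isOpen (convex_ball 0 1).isPreconnected with ⟨c, hc⟩ | ho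
      · exfalso
        have h1 : (1 / 2 : ℂ) ∈ ball (0 : ℂ) 1 := by
          rw [mem_ball_zero_iff]; norm_num
        have h2 := hu.inj 0 zero_mem (1 / 2) h1 ((hc 0 zero_mem).trans (hc _ h1).symm)
        norm_num at h2
      · exact ho _ (fun z hz => (ht hz).2) hto
    rw [Filter.mem_map]
    filter_upwards [hopen.mem_nhds ⟨v w, htw, hv' w hw⟩, isOpen_ball.mem_nhds hw] with x hx hx'
    obtain ⟨p, hp, hpx⟩ := hx
    have : v x = p := hu.inj _ (hv x hx') _ (ht hp).2 ((hv' x hx').trans hpx.symm)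
    rw [mem_preimage, this]
    exact (ht hp).1
  have h := HasDerivAt.of_local_left_inverse hcont (diffAt u (hv w hw)).hasDerivAt
    (hu.der _ (hv w hw)) (by
      filter_upwards [isOpen_ball.mem_nhds hw] with x hx
      exact hv' x hx)
  exact h.differentiableAt.differentiableWithinAt

theorem schwarz_pick {u : H} (hu : ∀ p ∈ ball (0 : ℂ) 1, (u : ℂ → ℂ) p ∈ ball (0 : ℂ) 1) :
    ∃ c : ℝ, 0 < c ∧ c ≤ 1 ∧ ∀ z ∈ ball (0 : ℂ) 1, c * (1 - ‖z‖) ≤ 1 - ‖(u : ℂ → ℂ) z‖ := by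
  set a := (u : ℂ → ℂ) 0 with ha
  have ham : a ∈ ball (0 : ℂ) 1 := hu 0 zero_mem
  have hal : ‖a‖ < 1 := by simpa using ham
  have hh : DifferentiableOn ℂ (fun z => psi a ((u : ℂ → ℂ) z)) (ball 0 1) := fun z hz =>
    (((psi_deriv ham (hu z hz)).comp z (diffAt u hz).hasDerivAt).differentiableAt).differentiableWithinAt
  refine ⟨(1 - ‖a‖) / 4, by linarith, by linarith [norm_nonneg a], fun z hz => ?_⟩
  have hzl : ‖z‖ < 1 := by simpa using hz
  have h1 : ‖psi a ((u : ℂ → ℂ) z)‖ ≤ ‖z‖ :=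
    Complex.norm_le_norm_of_mapsTo_ball hh (fun z hz => ball_subset_closedBall
      (psi_mem ham (hu z hz))) (by show psi a ((u : ℂ → ℂ) 0) = 0; rw [← ha]; simp [psi]) hzl
  set b := (u : ℂ → ℂ) z with hb
  have hbl : ‖b‖ < 1 := by simpa using hu z hz
  have hden := psi_den ham (hu z hz)
  have h2 := norm_den_sq a b
  have h3 : ‖a - b‖ ≤ ‖z‖ * ‖1 - conj a * b‖ := by
    rw [psi, norm_div, div_le_iff₀ (norm_pos_iff.2 hden)] at h1
    exact h1
  have h4 : 1 - ‖a‖ ≤ ‖1 - conj a * b‖ := by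
    have h5 : ‖(1 : ℂ)‖ - ‖conj a * b‖ ≤ ‖1 - conj a * b‖ := norm_sub_norm_le _ _
    rw [norm_one, norm_mul, RCLike.norm_conj] at h5
    nlinarith [norm_nonneg a, norm_nonneg b]
  have h6 : ‖a - b‖ ^ 2 ≤ ‖z‖ ^ 2 * ‖1 - conj a * b‖ ^ 2 := by
    rw [← mul_pow]
    exact pow_le_pow_left₀ (norm_nonneg _) h3 2
  -- (1 - |z|^2) |1 - conj a b|^2 ≤ (1-|a|^2)(1-|b|^2)
  have h7 : (1 - ‖z‖ ^ 2) * (1 - ‖a‖) ^ 2 ≤ (1 - ‖a‖ ^ 2) * (1 - ‖b‖ ^ 2) := by
    have h8 : (1 - ‖a‖) ^ 2 ≤ ‖1 - conj a * b‖ ^ 2 :=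
      pow_le_pow_left₀ (by linarith) h4 2
    have h9 : 0 ≤ 1 - ‖z‖ ^ 2 := by nlinarith [norm_nonneg z]
    nlinarith [mul_le_mul_of_nonneg_left h8 h9]
  have ha0 := norm_nonneg a
  have hb0 := norm_nonneg b
  have hz0 := norm_nonneg z
  have h10 : (1 - ‖z‖ ^ 2) * (1 - ‖a‖) ≤ (1 + ‖a‖) * (1 - ‖b‖ ^ 2) := by
    have : (1 - ‖a‖) * ((1 - ‖z‖ ^ 2) * (1 - ‖a‖)) ≤ (1 - ‖a‖) * ((1 + ‖a‖) * (1 - ‖b‖ ^ 2)) := by
      nlinarith
    exact le_of_mul_le_mul_left this (by linarith)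
  have h11 : (1 - ‖z‖) * (1 - ‖a‖) ≤ (1 - ‖z‖ ^ 2) * (1 - ‖a‖) := by
    apply mul_le_mul_of_nonneg_right _ (by linarith)
    nlinarith
  have h12 : (1 + ‖a‖) * (1 - ‖b‖ ^ 2) ≤ 4 * (1 - ‖b‖) := by
    have h13 : 1 - ‖b‖ ^ 2 ≤ 2 * (1 - ‖b‖) := by nlinarith
    have h14 : 0 ≤ 1 - ‖b‖ ^ 2 := by nlinarith
    nlinarith
  linarith

theorem log_bound {e : ℂ → ℂ} (he : ContinuousOn e (ball 0 1))
    (hmul : ∀ x : ℝ, 0 < x → x ≤ 1 → ∀ y : ℝ, 0 < y → y ≤ 1 →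
      e (1 - (x * y : ℝ)) = e (1 - (x : ℝ)) * e (1 - (y : ℝ))) :
    ∃ a b : ℝ, 0 ≤ a ∧ 0 ≤ b ∧ ∀ x : ℝ, 0 < x → x < 1 →
      ‖e (1 - (x : ℝ))‖ ≤ Real.exp (a + b * Real.log x⁻¹) := by
  have hc : ContinuousOn (fun x : ℝ => ‖e (1 - (x : ℝ))‖) (Icc (1 / 2) 1) := by
    refine (he.comp (by fun_prop : ContinuousOn (fun x : ℝ => (1 : ℂ) - (x : ℂ)) (Icc (1 / 2) 1))
      ?_).norm
    intro x hx
    rw [mem_ball_zero_iff]
    have : (1 : ℂ) - (x : ℂ) = ((1 - x : ℝ) : ℂ) := by push_cast; ring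
    show ‖(1 : ℂ) - (x : ℂ)‖ < 1
    rw [this, Complex.norm_real, Real.norm_eq_abs, abs_of_nonneg (by linarith [hx.2])]
    linarith [hx.1]
  obtain ⟨M, hM⟩ := isCompact_Icc.bddAbove_image hc
  set M' := max M 1 with hM'
  have hM1 : 1 ≤ M' := le_max_right _ _
  have hlogM : 0 ≤ Real.log M' := Real.log_nonneg hM1
  have hl2 : 0 < Real.log 2 := Real.log_pos one_lt_two
  refine ⟨Real.log M', Real.log M' / Real.log 2, hlogM, by positivity, fun x hx0 hx1 => ?_⟩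
  have hpow : ∀ y : ℝ, 0 < y → y ≤ 1 → ∀ n : ℕ, e (1 - ((y ^ (n + 1) : ℝ) : ℂ)) =
      e (1 - (y : ℝ)) ^ (n + 1) := by
    intro y hy0 hy1 n
    induction n with
    | zero => simp
    | succ n ih =>
      have h1 := hmul (y ^ (n + 1)) (by positivity) (pow_le_one₀ hy0.le hy1) y hy0 hy1
      rw [← pow_succ] at h1
      rw [h1, ih, ← pow_succ]
  have hL : 0 < Real.log x⁻¹ := Real.log_pos ((one_lt_inv₀ hx0).2 hx1)
  obtain ⟨n, hn⟩ : ∃ n : ℕ, ⌈Real.log x⁻¹ / Real.log 2⌉₊ = n + 1 := by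
    have : 0 < ⌈Real.log x⁻¹ / Real.log 2⌉₊ := Nat.ceil_pos.2 (by positivity)
    exact ⟨⌈Real.log x⁻¹ / Real.log 2⌉₊ - 1, by omega⟩
  have hn1 : Real.log x⁻¹ / Real.log 2 ≤ (n : ℝ) + 1 := by
    have := Nat.le_ceil (Real.log x⁻¹ / Real.log 2)
    rw [hn] at this
    push_cast at this
    exact this
  have hn2 : (n : ℝ) + 1 < Real.log x⁻¹ / Real.log 2 + 1 := by
    have := Nat.ceil_lt_add_one (show 0 ≤ Real.log x⁻¹ / Real.log 2 by positivity)
    rw [hn] at this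
    push_cast at this
    exact this
  set y : ℝ := x ^ ((1 : ℝ) / (n + 1)) with hy
  have hy0 : 0 < y := Real.rpow_pos_of_pos hx0 _
  have hy1 : y ≤ 1 := Real.rpow_le_one hx0.le hx1.le (by positivity)
  have hyx : y ^ (n + 1) = x := by
    rw [hy, ← Real.rpow_natCast, ← Real.rpow_mul hx0.le]
    push_cast
    rw [one_div_mul_cancel (by positivity), Real.rpow_one]
  have hy2 : 1 / 2 ≤ y := by
    rw [← Real.log_le_log_iff (by norm_num) hy0, hy, Real.log_rpow hx0, one_div, Real.log_inv]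
    rw [div_le_iff₀ hl2] at hn1
    rw [Real.log_inv] at hn1
    rw [one_div, inv_mul_eq_div, le_div_iff₀ (by positivity)]
    linarith
  have h1 : ‖e (1 - (y : ℝ))‖ ≤ M' :=
    (hM ⟨y, ⟨hy2, hy1⟩, rfl⟩).trans (le_max_left _ _)
  have h2 := hpow y hy0 hy1 n
  rw [hyx] at h2
  rw [h2, norm_pow]
  calc ‖e (1 - (y : ℝ))‖ ^ (n + 1) ≤ M' ^ (n + 1) := pow_le_pow_left₀ (norm_nonneg _) h1 _
    _ = Real.exp ((n + 1 : ℕ) * Real.log M') := by
      rw [Real.exp_nat_mul, Real.exp_log (by linarith)]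
    _ ≤ _ := by
      apply Real.exp_le_exp.2
      push_cast
      have h3 : ((n : ℝ) + 1) * Real.log M' ≤ (Real.log x⁻¹ / Real.log 2 + 1) * Real.log M' :=
        mul_le_mul_of_nonneg_right hn2.le hlogM
      calc ((n : ℝ) + 1) * Real.log M' ≤ (Real.log x⁻¹ / Real.log 2 + 1) * Real.log M' := h3
        _ = _ := by ring

theorem harnack {g : ℂ → ℂ} (hg : AnalyticOnNhd ℂ g (ball 0 1)) (h0 : ∀ z ∈ ball (0 : ℂ) 1, g z ≠ 0)
    (h1 : ∀ z ∈ ball (0 : ℂ) 1, 1 ≤ ‖g z‖) {b₀ : ℝ} (hb0 : 0 ≤ b₀) (hb1 : b₀ < 1) :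
    ∃ C : ℝ, 0 ≤ C ∧ C = 4 / (1 - b₀) ∧ ∀ b : ℂ, ‖b‖ ≤ b₀ →
      Real.log ‖g b‖ ≤ C * Real.log ‖g 0‖ := by
  refine ⟨4 / (1 - b₀), div_nonneg (by norm_num) (by linarith), rfl, fun b hb => ?_⟩
  set R := (1 + b₀) / 2 with hR
  have hR0 : 0 < R := by positivity
  have hR1 : R < 1 := by rw [hR]; linarith
  have hRb : b₀ < R := by rw [hR]; linarith
  have hsub : closedBall (0 : ℂ) R ⊆ ball 0 1 := closedBall_subset_ball hR1
  have hharm : HarmonicOnNhd (fun z => Real.log ‖g z‖) (closedBall 0 R) := fun x hx =>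
    (hg x (hsub hx)).harmonicAt_log_norm (h0 x (hsub hx))
  have hbm : b ∈ ball (0 : ℂ) R := by rw [mem_ball_zero_iff]; linarith
  have e1 := HarmonicOnNhd.circleAverage_re_herglotzRieszKernel_smul hharm hbm
  have e2 : circleAverage (fun z => Real.log ‖g z‖) 0 R = Real.log ‖g 0‖ := by
    apply AnalyticOnNhd.circleAverage_log_norm_of_ne_zero
    · rw [abs_of_pos hR0]; exact hg.mono hsub
    · rw [abs_of_pos hR0]; exact fun z hz => h0 z (hsub hz)
  have hc : ContinuousOn (fun z => Real.log ‖g z‖) (sphere (0 : ℂ) |R|) := by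
    rw [abs_of_pos hR0]
    intro z hz
    have hz' := hsub (sphere_subset_closedBall hz)
    exact ((hg z hz').continuousAt.norm.log (norm_ne_zero_iff.2 (h0 z hz'))).continuousWithinAt
  rw [← e1, ← e2]
  have e3 : 4 / (1 - b₀) * circleAverage (fun z => Real.log ‖g z‖) 0 R =
      circleAverage (fun z => (4 / (1 - b₀)) • Real.log ‖g z‖) 0 R := by
    rw [circleAverage_fun_smul, smul_eq_mul]
  rw [e3]
  apply circleAverage_mono
  · apply ContinuousOn.circleIntegrable'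
    exact (Complex.continuous_re.comp_continuousOn
      (continuousOn_herglotzRieszKernel_sphere hbm)).smul hc
  · apply ContinuousOn.circleIntegrable'
    exact hc.const_smul (4 / (1 - b₀))
  · intro z hz
    rw [abs_of_pos hR0] at hz
    simp only [Pi.smul_apply', Function.comp_apply, smul_eq_mul]
    apply mul_le_mul_of_nonneg_right
    · have h2 := re_herglotzRieszKernel_le hz hbm
      rw [herglotzRieszKernel_def]
      refine h2.trans ?_
      rw [sub_zero, div_le_div_iff₀ (by linarith) (by linarith)]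
      nlinarith [norm_nonneg b]
    · exact Real.log_nonneg (h1 z (hsub (sphere_subset_closedBall hz)))

end Pool.Agent.W891.HD
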