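import Mathlib
import Pool.Agent.W891.BdB

set_option autoImplicit false
set_option linter.style.haveILetI false
set_option linter.unusedVariables false

/-!
# Functions of logarithmic growth: the equivalence
-/

namespace Pool.Agent.W891.HD

open Metric Set Filter Topology ComplexConjugate Real InnerProductSpace

theorem Tc_nonneg (f : ℂ → ℂ) (r : ℝ) : 0 ≤ Tc f r :=
  circle_nonneg fun _ _ => posLog_nonneg

theorem isBigO_of_bd {f : H} (h : Bd f) : (fun r : ℝ => Tc (f : ℂ → ℂ) r) =O[𝓝[<] 1]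
    fun r : ℝ => Real.log (1 - r)⁻¹ := by
  obtain ⟨u, E, hu, hE, ρ, hρ, hmaj⟩ := h
  obtain ⟨v, hv, hvd⟩ := coord_inverse hu
  obtain ⟨c, hc0, hc1, hc⟩ := schwarz_pick hu.maps
  have hofR : ∀ x : ℝ, 0 < x → x ≤ 1 → (1 : ℂ) - (x : ℂ) ∈ ball (0 : ℂ) 1 := by
    intro x hx0 hx1
    rw [mem_ball_zero_iff]
    have : (1 : ℂ) - (x : ℂ) = ((1 - x : ℝ) : ℂ) := by push_cast; ring
    rw [this, Complex.norm_real, Real.norm_eq_abs, abs_of_nonneg (by linarith)]
    linarith
  obtain ⟨A, B, hA, hB, hAB⟩ := log_bound (e := fun w => (E : ℂ → ℂ) (v w))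
    ((diff E).continuousOn.comp hvd.continuousOn fun w hw => (hv w hw).1) (by
      intro x hx0 hx1 y hy0 hy1
      have h1 := hofR x hx0 hx1
      have h2 := hofR y hy0 hy1
      have h3 := hofR (x * y) (by positivity) (by nlinarith)
      apply hE _ (hv _ h1).1 _ (hv _ h2).1 _ (hv _ h3).1
      rw [(hv _ h1).2, (hv _ h2).2, (hv _ h3).2]
      push_cast
      ring)
  set a := (u : ℂ → ℂ) 0 with ha
  have ham : a ∈ ball (0 : ℂ) 1 := hu.maps 0 zero_mem
  have hal : ‖a‖ < 1 := by simpa using ham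
  have hρl : ‖ρ‖ < 1 := by simpa using hρ
  have ha0 := norm_nonneg a
  have hρ0 := norm_nonneg ρ
  set b₀ : ℝ := (1 + ‖a‖) / 2 with hb₀
  have hb00 : 0 ≤ b₀ := by positivity
  have hb01 : b₀ < 1 := by rw [hb₀]; linarith
  set κ : ℝ := max ‖ρ‖ (2 * ‖a‖ / (1 + ‖a‖)) with hκ
  have hκ1 : κ < 1 := max_lt hρl (by rw [div_lt_one (by positivity)]; linarith)
  have hκ0 : 0 ≤ κ := le_trans hρ0 (le_max_left _ _)
  set C := 4 / (1 - b₀) with hC
  have hC0 : 0 ≤ C := div_nonneg (by norm_num) (by linarith)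
  -- the main bound
  have hmain : ∀ t : ℝ, 0 < t → t < 1 → κ < 1 - c * (1 - t) / 2 →
      Tc (f : ℂ → ℂ) t ≤ C * (A + B * Real.log (c * (1 - t) / 2)⁻¹) := by
    intro t ht0 ht1 htκ
    set r : ℝ := 1 - c * (1 - t) / 2 with hr
    have hct : 0 < c * (1 - t) := mul_pos hc0 (by linarith)
    have hr1 : r < 1 := by rw [hr]; linarith
    have hr0 : 0 < r := lt_of_le_of_lt hκ0 htκ
    have hrC : (r : ℂ) ≠ 0 := by exact_mod_cast hr0.ne'
    obtain ⟨G, hG0, hG1, hG2, hG3⟩ : Majo f u E r := by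
      have h1 := hmaj (Real.sqrt r) (by
        rw [Real.mul_self_sqrt hr0.le]
        exact lt_of_le_of_lt (le_max_left _ _) htκ) (by
        rw [Real.mul_self_sqrt hr0.le]; exact hr1)
      rwa [Real.mul_self_sqrt hr0.le] at h1
    rw [isUnit_iff] at hG0
    set g : ℂ → ℂ := fun w => (G : ℂ → ℂ) (v w) with hg
    have hgd : DifferentiableOn ℂ g (ball 0 1) := (diff G).comp hvd fun w hw => (hv w hw).1
    have hga : AnalyticOnNhd ℂ g (ball 0 1) := hgd.analyticOnNhd isOpen_ball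
    have hg0 : ∀ z ∈ ball (0 : ℂ) 1, g z ≠ 0 := fun z hz => hG0 _ (hv z hz).1
    have hg1 : ∀ z ∈ ball (0 : ℂ) 1, 1 ≤ ‖g z‖ := fun z hz => hG1 _ (hv z hz).1
    obtain ⟨C', hC'0, hC', hh⟩ := harnack hga hg0 hg1 hb00 hb01
    have hCC : C' = C := hC'
    rw [hCC] at hh
    -- the domain of `k`
    set t' : ℝ := (1 + t) / 2 with ht'
    have ht'1 : t' < 1 := by rw [ht']; linarith
    have htt' : t < t' := by rw [ht']; linarith
    have hmaps : ∀ z ∈ ball (0 : ℂ) t', (u : ℂ → ℂ) z / r ∈ ball (0 : ℂ) 1 := by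
      intro z hz
      rw [mem_ball_zero_iff] at hz
      have hz1 : z ∈ ball (0 : ℂ) 1 := by rw [mem_ball_zero_iff]; linarith
      have h1 := hc z hz1
      rw [mem_ball_zero_iff, norm_div, Complex.norm_real, Real.norm_eq_abs, abs_of_pos hr0,
        div_lt_one hr0]
      have h2 : c * (1 - t') < c * (1 - ‖z‖) := mul_lt_mul_of_pos_left (by linarith) hc0
      have h3 : c * (1 - t') = c * (1 - t) / 2 := by rw [ht']; ring
      rw [hr]
      linarith
    have hk1 : ∀ z ∈ ball (0 : ℂ) t', z ∈ ball (0 : ℂ) 1 := fun z hz =>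
      ball_subset_ball ht'1.le hz
    set k : ℂ → ℂ := fun z => g ((u : ℂ → ℂ) z / r) with hk
    have hkd : DifferentiableOn ℂ k (ball 0 t') :=
      hgd.comp (((diff u).mono hk1).div_const _) hmaps
    have hka : AnalyticOnNhd ℂ k (ball 0 t') := hkd.analyticOnNhd isOpen_ball
    have hsub : closedBall (0 : ℂ) |t| ⊆ ball 0 t' := by
      rw [abs_of_pos ht0]; exact closedBall_subset_ball htt'
    have e1 : circleAverage (fun z => Real.log ‖k z‖) 0 t = Real.log ‖k 0‖ := by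
      apply AnalyticOnNhd.circleAverage_log_norm_of_ne_zero (hka.mono hsub)
      exact fun z hz => hg0 _ (hmaps z (hsub hz))
    have hss : sphere (0 : ℂ) |t| ⊆ ball 0 t' := sphere_subset_closedBall.trans hsub
    have h4 : Tc (f : ℂ → ℂ) t ≤ Real.log ‖k 0‖ := by
      rw [← e1]
      apply circleAverage_mono
      · apply ContinuousOn.circleIntegrable'
        exact continuous_posLog.comp_continuousOn
          (((diff f).continuousOn.mono (hss.trans hk1)).norm)
      · apply ContinuousOn.circleIntegrable'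
        intro z hz
        exact (((hka z (hss hz)).continuousAt.norm.log (norm_ne_zero_iff.2
          (hg0 _ (hmaps z (hss hz)))))).continuousWithinAt
      · intro z hz
        have hz' := hss hz
        have h5 := hmaps z hz'
        have h6 := hv _ h5
        have h7 := hG2 z (hk1 z hz') _ h6.1 (by rw [h6.2]; field_simp)
        show log⁺ ‖(f : ℂ → ℂ) z‖ ≤ Real.log ‖(G : ℂ → ℂ) (v ((u : ℂ → ℂ) z / r))‖
        rw [← posLog_eq_log (by rw [abs_of_nonneg (norm_nonneg _)]; exact hG1 _ h6.1)]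
        exact posLog_le_posLog (norm_nonneg _) h7
    have h5 : Real.log ‖k 0‖ ≤ C * Real.log ‖g 0‖ := by
      apply hh
      rw [← ha, norm_div, Complex.norm_real, Real.norm_eq_abs, abs_of_pos hr0, div_le_iff₀ hr0]
      have h6 : 2 * ‖a‖ / (1 + ‖a‖) < r := lt_of_le_of_lt (le_max_right _ _) htκ
      rw [div_lt_iff₀ (by positivity)] at h6
      rw [hb₀]
      linarith
    have hrm : (r : ℂ) ∈ ball (0 : ℂ) 1 := by
      rw [mem_ball_zero_iff, Complex.norm_real, Real.norm_eq_abs, abs_of_pos hr0]; exact hr1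
    have h6 : ‖g 0‖ ≤ ‖(E : ℂ → ℂ) (v r)‖ :=
      hG3 _ (hv _ hrm).1 _ (hv _ zero_mem).1 (hv _ zero_mem).2 (hv _ hrm).2
    have h7 := hAB (1 - r) (by linarith) (by linarith)
    have e2 : (1 : ℂ) - ((1 - r : ℝ) : ℂ) = (r : ℂ) := by push_cast; ring
    simp only [e2] at h7
    have h8 : Real.log ‖g 0‖ ≤ A + B * Real.log (1 - r)⁻¹ := by
      rw [← Real.log_exp (A + B * Real.log (1 - r)⁻¹)]
      apply Real.log_le_log (norm_pos_iff.2 (hg0 0 zero_mem))
      exact h6.trans h7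
    have e3 : 1 - r = c * (1 - t) / 2 := by rw [hr]; ring
    rw [e3] at h8
    calc Tc (f : ℂ → ℂ) t ≤ Real.log ‖k 0‖ := h4
      _ ≤ C * Real.log ‖g 0‖ := h5
      _ ≤ _ := mul_le_mul_of_nonneg_left h8 hC0
  -- conclusion
  set L := Real.log (2 / c) with hL
  have hL0 : 0 ≤ L := Real.log_nonneg (by rw [le_div_iff₀ hc0]; linarith)
  refine Asymptotics.IsBigO.of_bound (C * (A + B * L + B)) ?_
  have hev : ∀ᶠ t : ℝ in 𝓝[<] 1, 0 < t ∧ t < 1 ∧ κ < 1 - c * (1 - t) / 2 ∧ 1 ≤ Real.log (1 - t)⁻¹ := by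
    have h1 : ∀ᶠ t : ℝ in 𝓝[<] 1, t ∈ Ioo (max 0 (max κ (1 - Real.exp (-1)))) 1 := by
      apply Ioo_mem_nhdsLT
      refine max_lt one_pos (max_lt hκ1 ?_)
      linarith [Real.exp_pos (-1)]
    filter_upwards [h1] with t ht
    obtain ⟨ht1, ht2⟩ := ht
    have e1 := lt_of_le_of_lt (le_max_left _ _) ht1
    have e2 := lt_of_le_of_lt ((le_max_left _ _).trans (le_max_right _ _)) ht1
    have e3 := lt_of_le_of_lt ((le_max_right _ _).trans (le_max_right _ _)) ht1
    refine ⟨e1, ht2, ?_, ?_⟩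
    · nlinarith
    · rw [Real.log_inv]
      have h2 : 1 - t ≤ Real.exp (-1) := by linarith
      have h3 := Real.log_le_log (by linarith) h2
      rw [Real.log_exp] at h3
      linarith
  filter_upwards [hev] with t ht
  obtain ⟨ht0, ht1, htκ, htl⟩ := ht
  have h1 := hmain t ht0 ht1 htκ
  rw [Real.norm_eq_abs, Real.norm_eq_abs, abs_of_nonneg (Tc_nonneg _ _),
    abs_of_nonneg (by linarith)]
  have h2 : Real.log (c * (1 - t) / 2)⁻¹ = L + Real.log (1 - t)⁻¹ := by
    rw [hL, ← Real.log_mul (by positivity) (by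
      have : 1 - t ≠ 0 := by linarith
      positivity)]
    congr 1
    have : 1 - t ≠ 0 := by linarith
    field_simp
  rw [h2] at h1
  refine h1.trans ?_
  rw [mul_assoc]
  apply mul_le_mul_of_nonneg_left _ hC0
  set x := Real.log (1 - t)⁻¹ with hx
  nlinarith [mul_nonneg hB hL0, mul_nonneg hA (show 0 ≤ x - 1 by linarith),
    mul_nonneg (mul_nonneg hB hL0) (show 0 ≤ x - 1 by linarith)]

theorem bd_iff (f : H) : Bd f ↔ (fun r : ℝ => Tc (f : ℂ → ℂ) r) =O[𝓝[<] 1]
    fun r : ℝ => Real.log (1 - r)⁻¹ := ⟨isBigO_of_bd, bd_of_isBigO⟩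

end Pool.Agent.W891.HD
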