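import Mathlib
import Pool.Agent.W891.Const

set_option autoImplicit false
set_option linter.style.haveILetI false
set_option linter.unusedVariables false

/-!
# The real constants are definable
-/

namespace Pool.Agent.W891.HD

open Metric Set Filter Topology ComplexConjugate

/-- real constants -/
def Rl (f : H) : Prop := ∃ r : ℝ, f = con r

/-- the image of `g` is stable under the translation by `c` -/
def Inv (c g : H) : Prop := ∀ d, K d → ¬ IsUnit (g - d) → ¬ IsUnit (g - (d + c))

/-- the formula for the reals -/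
def RF (x : H) : Prop := K x ∧ ∀ g, (Inv 1 g ∧ Inv (-1) g ∧ ∀ c, K c → Inv (2 * c) g → Inv c g) →
  Inv x g

theorem not_unit_iff (g : H) (d : ℂ) :
    ¬ IsUnit (g - con d) ↔ d ∈ (g : ℂ → ℂ) '' ball (0 : ℂ) 1 := by
  rw [isUnit_iff]
  push Not
  constructor
  · rintro ⟨z, hz, h⟩
    exact ⟨z, hz, sub_eq_zero.1 (by simpa using h)⟩
  · rintro ⟨z, hz, h⟩
    exact ⟨z, hz, by simp [h]⟩

theorem inv_iff (c : ℂ) (g : H) : Inv (con c) g ↔ ∀ d ∈ (g : ℂ → ℂ) '' ball (0 : ℂ) 1,
    d + c ∈ (g : ℂ → ℂ) '' ball (0 : ℂ) 1 := by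
  constructor
  · intro h d hd
    have := h (con d) ⟨d, rfl⟩ ((not_unit_iff g d).2 hd)
    rwa [← con_add, not_unit_iff] at this
  · rintro h _ ⟨d, rfl⟩ hd
    rw [← con_add, not_unit_iff]
    exact h d ((not_unit_iff g d).1 hd)

theorem upper {z : ℂ} (hz : z ∈ ball (0 : ℂ) 1) : 1 - z ≠ 0 := by
  intro h
  have : ‖z‖ = 1 := by rw [← sub_eq_zero.1 h]; simp
  rw [mem_ball_zero_iff] at hz
  linarith

theorem upper_im {z : ℂ} (hz : z ∈ ball (0 : ℂ) 1) :
    0 < (Complex.I * ((1 + z) / (1 - z))).im := by
  have hne := upper hz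
  have h1 : (1 + z) / (1 - z) = (1 + z) * conj (1 - z) / (Complex.normSq (1 - z) : ℂ) := by
    rw [← Complex.mul_conj]
    have : conj (1 - z) ≠ 0 := (map_ne_zero _).2 hne
    field_simp
  rw [Complex.I_mul_im, h1, Complex.div_ofReal_re]
  apply div_pos
  · simp only [map_sub, map_one, Complex.mul_re, Complex.add_re, Complex.one_re, Complex.sub_re,
      Complex.conj_re, Complex.add_im, Complex.one_im, Complex.sub_im, Complex.conj_im]
    rw [mem_ball_zero_iff] at hz
    have h2 : ‖z‖ ^ 2 = z.re ^ 2 + z.im ^ 2 := by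
      rw [← Complex.normSq_eq_norm_sq, Complex.normSq_apply]; ring
    nlinarith [norm_nonneg z]
  · exact Complex.normSq_pos.2 hne

/-- a conformal map onto the upper half plane -/
noncomputable def up : H := mk (fun z => Complex.I * ((1 + z) / (1 - z))) (by
  apply DifferentiableOn.const_mul
  exact (by fun_prop : DifferentiableOn ℂ (fun z : ℂ => 1 + z) (ball 0 1)).div
    (by fun_prop) (fun z hz => upper hz))

theorem up_image : (up : ℂ → ℂ) '' ball (0 : ℂ) 1 = {w : ℂ | 0 < w.im} := by
  ext w
  constructor
  · rintro ⟨z, hz, rfl⟩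
    rw [up, mk_apply _ hz]
    exact upper_im hz
  · intro hw
    have hw' : 0 < w.im := hw
    have hne : w + Complex.I ≠ 0 := by
      intro h
      have := congrArg Complex.im h
      simp at this
      linarith
    have hz : (w - Complex.I) / (w + Complex.I) ∈ ball (0 : ℂ) 1 := by
      rw [mem_ball_zero_iff, norm_div, div_lt_one (norm_pos_iff.2 hne)]
      refine lt_of_pow_lt_pow_left₀ 2 (norm_nonneg _) ?_
      rw [← Complex.normSq_eq_norm_sq, ← Complex.normSq_eq_norm_sq, Complex.normSq_apply,
        Complex.normSq_apply]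
      simp only [Complex.sub_re, Complex.I_re, Complex.sub_im, Complex.I_im, Complex.add_re,
        Complex.add_im]
      nlinarith
    refine ⟨_, hz, ?_⟩
    rw [up, mk_apply _ hz]
    have h1 := upper hz
    have h2 : 1 - (w - Complex.I) / (w + Complex.I) = 2 * Complex.I / (w + Complex.I) := by
      field_simp; ring
    have h3 : 1 + (w - Complex.I) / (w + Complex.I) = 2 * w / (w + Complex.I) := by
      field_simp; ring
    rw [h2, h3]
    have := Complex.I_ne_zero
    field_simp

theorem neg_up_image : ((-up : H) : ℂ → ℂ) '' ball (0 : ℂ) 1 = {w : ℂ | w.im < 0} := by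
  ext w
  have h := Set.ext_iff.1 up_image (-w)
  simp only [mem_image, Set.mem_ofPred_eq, Complex.neg_im, Left.neg_pos_iff] at h
  simp only [mem_image, Set.mem_ofPred_eq, neg_apply]
  rw [← h]
  constructor
  · rintro ⟨z, hz, rfl⟩
    exact ⟨z, hz, (neg_neg _).symm⟩
  · rintro ⟨z, hz, hzw⟩
    exact ⟨z, hz, by rw [hzw, neg_neg]⟩

theorem RF_iff (x : H) : RF x ↔ Rl x := by
  constructor
  · rintro ⟨⟨c, rfl⟩, h⟩
    have e1 : (1 : H) = con 1 := con_one.symm
    have e2 : (-1 : H) = con (-1) := by rw [con_neg, con_one]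
    have e3 : ∀ d : ℂ, 2 * con d = con (2 * d) := fun d => by
      rw [con_mul]; congr 1; exact ext fun z _ => by simp
    have h1 : 0 ≤ c.im := by
      have := h up ⟨?_, ?_, ?_⟩
      · rw [inv_iff, up_image] at this
        by_contra hc
        push Not at hc
        have h2 := this (((-c.im / 2 : ℝ) : ℂ) * Complex.I) (by simp; linarith)
        simp at h2
        linarith
      · rw [e1, inv_iff, up_image]
        intro d hd
        simpa using hd
      · rw [e2, inv_iff, up_image]
        intro d hd
        simpa using hd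
      · rintro _ ⟨d, rfl⟩ hd
        rw [e3, inv_iff, up_image] at hd
        rw [inv_iff, up_image]
        intro e he
        have he' : 0 < e.im := he
        have h4 : 0 ≤ d.im := by
          by_contra hc
          push Not at hc
          have h2 := hd (((-d.im / 2 : ℝ) : ℂ) * Complex.I) (by simp; linarith)
          simp at h2
          linarith
        show 0 < (e + d).im
        rw [Complex.add_im]
        linarith
    have h1' : c.im ≤ 0 := by
      have := h (-up) ⟨?_, ?_, ?_⟩
      · rw [inv_iff, neg_up_image] at this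
        by_contra hc
        push Not at hc
        have h2 := this (((-c.im / 2 : ℝ) : ℂ) * Complex.I) (by simp; linarith)
        simp at h2
        linarith
      · rw [e1, inv_iff, neg_up_image]
        intro d hd
        simpa using hd
      · rw [e2, inv_iff, neg_up_image]
        intro d hd
        simpa using hd
      · rintro _ ⟨d, rfl⟩ hd
        rw [e3, inv_iff, neg_up_image] at hd
        rw [inv_iff, neg_up_image]
        intro e he
        have he' : e.im < 0 := he
        have h4 : d.im ≤ 0 := by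
          by_contra hc
          push Not at hc
          have h2 := hd (((-d.im / 2 : ℝ) : ℂ) * Complex.I) (by simp; linarith)
          simp at h2
          linarith
        show (e + d).im < 0
        rw [Complex.add_im]
        linarith
    refine ⟨c.re, ?_⟩
    congr 1
    apply Complex.ext
    · simp
    · simp; linarith
  · rintro ⟨r, rfl⟩
    refine ⟨⟨_, rfl⟩, fun g hg => ?_⟩
    obtain ⟨h1, h2, h3⟩ := hg
    have e1 : (1 : H) = con 1 := con_one.symm
    have e2 : (-1 : H) = con (-1) := by rw [con_neg, con_one]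
    have e3 : ∀ d : ℂ, 2 * con d = con (2 * d) := fun d => by
      rw [con_mul]; congr 1; exact ext fun z _ => by simp
    rw [e1, inv_iff] at h1
    rw [e2, inv_iff] at h2
    have h3' : ∀ c : ℂ, (∀ d ∈ (g : ℂ → ℂ) '' ball (0 : ℂ) 1,
        d + 2 * c ∈ (g : ℂ → ℂ) '' ball (0 : ℂ) 1) → ∀ d ∈ (g : ℂ → ℂ) '' ball (0 : ℂ) 1,
        d + c ∈ (g : ℂ → ℂ) '' ball (0 : ℂ) 1 := by
      intro c hc
      have := h3 (con c) ⟨c, rfl⟩ (by rw [e3, inv_iff]; exact hc)
      rwa [inv_iff] at this
    rw [inv_iff]
    set S := (g : ℂ → ℂ) '' ball (0 : ℂ) 1 with hS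
    have hnat : ∀ n : ℕ, ∀ d ∈ S, d + n ∈ S := by
      intro n
      induction n with
      | zero => intro d hd; simpa using hd
      | succ n ih =>
        intro d hd
        have := h1 _ (ih d hd)
        push_cast
        rwa [add_assoc] at this
    have hnat' : ∀ n : ℕ, ∀ d ∈ S, d + -(n : ℂ) ∈ S := by
      intro n
      induction n with
      | zero => intro d hd; simpa using hd
      | succ n ih =>
        intro d hd
        have := h2 _ (ih d hd)
        push_cast
        rw [neg_add]
        rwa [add_assoc] at this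
    have hint : ∀ n : ℤ, ∀ d ∈ S, d + (n : ℂ) ∈ S := by
      intro n d hd
      rcases n with n | n
      · simpa using hnat n d hd
      · have := hnat' (n + 1) d hd
        push_cast at this ⊢
        exact this
    have hdy : ∀ k : ℕ, ∀ n : ℤ, ∀ d ∈ S, d + (n : ℂ) / 2 ^ k ∈ S := by
      intro k
      induction k with
      | zero => intro n d hd; simpa using hint n d hd
      | succ k ih =>
        intro n
        apply h3'
        intro d hd
        have := ih n d hd
        convert this using 2
        rw [pow_succ]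
        field_simp
    have hopen : IsOpen S := by
      have ha : AnalyticOnNhd ℂ (g : ℂ → ℂ) (ball 0 1) := (diff g).analyticOnNhd isOpen_ball
      rcases ha.is_constant_or_isOpen (convex_ball 0 1).isPreconnected with ⟨w, hw⟩ | ho
      · exfalso
        have h4 : (g : ℂ → ℂ) 0 ∈ S := ⟨0, zero_mem, rfl⟩
        obtain ⟨z, hz, h5⟩ := h1 _ h4
        rw [hw z hz, hw 0 zero_mem] at h5
        have : (1 : ℂ) = 0 := by linear_combination -h5
        exact one_ne_zero this
      · exact ho _ subset_rfl isOpen_ball
    intro d hd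
    obtain ⟨ε, hε, hb⟩ := Metric.isOpen_iff.1 hopen d hd
    obtain ⟨k, hk⟩ := exists_pow_lt_of_lt_one hε (by norm_num : (1 / 2 : ℝ) < 1)
    have hk0 : (0 : ℝ) < 2 ^ k := by positivity
    have h6 : d + ((r - ⌊r * 2 ^ k⌋ / 2 ^ k : ℝ) : ℂ) ∈ S := by
      apply hb
      rw [mem_ball, dist_eq_norm, add_sub_cancel_left, Complex.norm_real, Real.norm_eq_abs]
      have h7 : r - ⌊r * 2 ^ k⌋ / 2 ^ k = Int.fract (r * 2 ^ k) / 2 ^ k := by
        rw [Int.fract]; field_simp
      rw [h7, abs_of_nonneg (by positivity)]
      have h8 := Int.fract_lt_one (r * 2 ^ k)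
      calc Int.fract (r * 2 ^ k) / 2 ^ k < 1 / 2 ^ k := by gcongr
        _ = (1 / 2) ^ k := by rw [one_div, one_div, inv_pow]
        _ < ε := hk
    have h9 := hdy k ⌊r * 2 ^ k⌋ _ h6
    convert h9 using 1
    push_cast
    ring

open Fo in
theorem D2_inv : D2 Inv := by
  unfold D2 Inv
  exact D.all ((D1_K.app (T.var 0)).imp ((D.unit ((T.var 2).sub (T.var 0))).not.imp
    (D.unit ((T.var 2).sub ((T.var 0).add (T.var 1)))).not))

open Fo in
theorem D1_R : D1 Rl := by
  refine D.congr (P := fun v : ℕ → H => RF (v 0)) ?_ fun v => RF_iff _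
  unfold RF
  refine (D1_K.app (T.var 0)).and (D.all (D.imp (D.and (D2_inv.app T.one (T.var 0)) (D.and
    (D2_inv.app T.one.neg (T.var 0)) (D.all ((D1_K.app (T.var 0)).imp (D.imp
      (D2_inv.app (T.two.mul (T.var 0)) (T.var 1)) (D2_inv.app (T.var 0) (T.var 1)))))))
      (D2_inv.app (T.var 1) (T.var 0))))

end Pool.Agent.W891.HD
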