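import Mathlib
import Pool.Agent.W891.BdC
import Pool.Agent.W891.Real

set_option autoImplicit false
set_option linter.style.haveILetI false
set_option linter.unusedVariables false

/-!
# Logarithmic growth is definable
-/

namespace Pool.Agent.W891.HD

open Metric Set Filter Topology ComplexConjugate

/-- comparison of the moduli of constants -/
def NL (x y : H) : Prop := ∃ c d : ℂ, x = con c ∧ y = con d ∧ ‖c‖ ≤ ‖d‖

/-- the formula -/
def NLF (x y : H) : Prop := ∃ j a b a' b' s, (K j ∧ j * j = -1) ∧ (Rl a ∧ Rl b ∧ Rl a' ∧ Rl b' ∧ Rl s) ∧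
  x = a + j * b ∧ y = a' + j * b' ∧ a' * a' + b' * b' = a * a + b * b + s * s

theorem con_ext {a b : ℂ} (h : a = b) : con a = con b := by rw [h]

theorem NLF_iff (x y : H) : NLF x y ↔ NL x y := by
  constructor
  · rintro ⟨_, _, _, _, _, _, ⟨⟨j, rfl⟩, hj⟩, ⟨⟨a, rfl⟩, ⟨b, rfl⟩, ⟨a', rfl⟩, ⟨b', rfl⟩, ⟨s, rfl⟩⟩,
      hx, hy, hs⟩
    rw [← con_mul, ← con_one, ← con_neg] at hj
    have hj' := con_inj hj
    rw [← con_mul, ← con_add] at hx hy
    refine ⟨_, _, hx, hy, ?_⟩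
    simp only [← con_mul, ← con_add] at hs
    have hs' := con_inj hs
    have hs2 : a' * a' + b' * b' = a * a + b * b + s * s := by exact_mod_cast hs'
    have hj2 : ‖j‖ = 1 := by
      have := congrArg norm hj'
      rw [norm_mul, norm_neg, norm_one] at this
      nlinarith [norm_nonneg j]
    have hjI : j = Complex.I ∨ j = -Complex.I := by
      have h1 : (j - Complex.I) * (j + Complex.I) = 0 := by
        ring_nf
        rw [Complex.I_sq, sq, hj']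
        ring
      rcases mul_eq_zero.1 h1 with h | h
      · exact Or.inl (sub_eq_zero.1 h)
      · exact Or.inr (eq_neg_of_add_eq_zero_left h)
    have key : ∀ x y : ℝ, ‖(x : ℂ) + j * (y : ℂ)‖ ^ 2 = x * x + y * y := by
      intro x y
      rw [← Complex.normSq_eq_norm_sq, Complex.normSq_apply]
      rcases hjI with h | h <;> rw [h] <;> simp
    refine le_of_sq_le_sq ?_ (norm_nonneg _)
    rw [key, key]
    nlinarith
  · rintro ⟨c, d, rfl, rfl, h⟩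
    have h2 : 0 ≤ (d.re * d.re + d.im * d.im) - (c.re * c.re + c.im * c.im) := by
      have h3 := pow_le_pow_left₀ (norm_nonneg c) h 2
      rw [← Complex.normSq_eq_norm_sq, ← Complex.normSq_eq_norm_sq, Complex.normSq_apply,
        Complex.normSq_apply] at h3
      linarith
    refine ⟨con Complex.I, con (c.re : ℝ), con (c.im : ℝ), con (d.re : ℝ), con (d.im : ℝ),
      con ((Real.sqrt ((d.re * d.re + d.im * d.im) - (c.re * c.re + c.im * c.im)) : ℝ)),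
      ⟨⟨_, rfl⟩, ?_⟩, ⟨⟨_, rfl⟩, ⟨_, rfl⟩, ⟨_, rfl⟩, ⟨_, rfl⟩, ⟨_, rfl⟩⟩, ?_, ?_, ?_⟩
    · rw [← con_mul, ← con_one, ← con_neg, Complex.I_mul_I]
    · rw [← con_mul, ← con_add]
      apply con_ext
      rw [mul_comm]
      exact (Complex.re_add_im c).symm
    · rw [← con_mul, ← con_add]
      apply con_ext
      rw [mul_comm]
      exact (Complex.re_add_im d).symm
    · simp only [← con_mul, ← con_add]
      apply con_ext
      norm_cast
      rw [Real.mul_self_sqrt h2]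
      ring

theorem NL_con (c d : ℂ) : NL (con c) (con d) ↔ ‖c‖ ≤ ‖d‖ := by
  constructor
  · rintro ⟨c', d', h1, h2, h⟩
    rwa [con_inj h1, con_inj h2]
  · intro h
    exact ⟨c, d, rfl, rfl, h⟩

theorem NL_one (d : ℂ) : NL 1 (con d) ↔ 1 ≤ ‖d‖ := by
  rw [← con_one, NL_con, norm_one]

open Fo in
theorem D2_NL : D2 NL := by
  refine D.congr (P := fun v : ℕ → H => NLF (v 0) (v 1)) ?_ fun v => NLF_iff _ _
  unfold NLF
  refine D.ex (D.ex (D.ex (D.ex (D.ex (D.ex ?_)))))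
  -- variables: s = 0, b' = 1, a' = 2, b = 3, a = 4, j = 5, x = 6, y = 7
  refine ((D1_K.app (T.var 5)).and (D.eq ((T.var 5).mul (T.var 5)) T.one.neg)).and
    (((D1_R.app (T.var 4)).and ((D1_R.app (T.var 3)).and ((D1_R.app (T.var 2)).and
      ((D1_R.app (T.var 1)).and (D1_R.app (T.var 0)))))).and ?_)
  exact (D.eq (T.var 6) ((T.var 4).add ((T.var 5).mul (T.var 3)))).and
    ((D.eq (T.var 7) ((T.var 2).add ((T.var 5).mul (T.var 1)))).and
      (D.eq (((T.var 2).mul (T.var 2)).add ((T.var 1).mul (T.var 1)))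
        ((((T.var 4).mul (T.var 4)).add ((T.var 3).mul (T.var 3))).add ((T.var 0).mul (T.var 0)))))

/-- the formula for coordinates -/
def CoordF (u : H) : Prop :=
  (∀ d, K d → (¬ IsUnit (u - d) ↔ ¬ NL 1 d)) ∧
  (∀ h, Irreducible h → ∀ h', Irreducible h' → ∀ d, K d → h ∣ u - d → h' ∣ u - d → h ∣ h') ∧
  (∀ h, Irreducible h → ∀ d, K d → h ∣ u - d → ¬ h ^ 2 ∣ u - d)

theorem irr_pt {p : ℂ} (hp : p ∈ ball (0 : ℂ) 1) : Irreducible (pt p) :=
  irr_iff.2 ⟨p, hp, Associated.refl _⟩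

theorem dvd_con {p : ℂ} (hp : p ∈ ball (0 : ℂ) 1) (f : H) (c : ℂ) :
    pt p ∣ f - con c ↔ (f : ℂ → ℂ) p = c := by
  rw [dvd_sub_iff hp, con_apply]

theorem deriv_con (c p : ℂ) : deriv ((con c : H) : ℂ → ℂ) p = 0 := by
  have : ((con c : H) : ℂ → ℂ) = fun _ => c := by
    funext z; simp
  rw [this]
  simp

theorem CoordF_iff (u : H) : CoordF u ↔ Coord u := by
  constructor
  · rintro ⟨h1, h2, h3⟩
    have h1' : ∀ d : ℂ, d ∈ (u : ℂ → ℂ) '' ball (0 : ℂ) 1 ↔ d ∈ ball (0 : ℂ) 1 := by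
      intro d
      have := h1 (con d) ⟨d, rfl⟩
      rw [not_unit_iff, NL_one, not_le] at this
      rw [this, mem_ball_zero_iff]
    refine ⟨fun p hp => (h1' _).1 ⟨p, hp, rfl⟩, fun w hw => (h1' w).2 hw, ?_, ?_⟩
    · intro p hp q hq hpq
      have h4 := h2 _ (irr_pt hp) _ (irr_pt hq) (con ((u : ℂ → ℂ) p)) ⟨_, rfl⟩
        ((dvd_con hp _ _).2 rfl) ((dvd_con hq _ _).2 hpq.symm)
      rw [pt_dvd hp, pt_apply q hp] at h4
      exact sub_eq_zero.1 h4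
    · intro p hp h0
      apply h3 _ (irr_pt hp) (con ((u : ℂ → ℂ) p)) ⟨_, rfl⟩ ((dvd_con hp _ _).2 rfl)
      rw [sq_dvd_sub hp, con_apply, deriv_con]
      exact ⟨rfl, h0⟩
  · intro h
    refine ⟨?_, ?_, ?_⟩
    · rintro _ ⟨d, rfl⟩
      rw [not_unit_iff, NL_one, not_le]
      constructor
      · rintro ⟨p, hp, rfl⟩
        simpa using h.maps p hp
      · intro hd
        exact h.surj d (by simpa using hd)
    · rintro x hx y hy _ ⟨d, rfl⟩ hxd hyd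
      obtain ⟨p, hp, hap⟩ := irr_iff.1 hx
      obtain ⟨q, hq, haq⟩ := irr_iff.1 hy
      rw [← hap.dvd_iff_dvd_left, dvd_con hp] at hxd
      rw [← haq.dvd_iff_dvd_left, dvd_con hq] at hyd
      have := h.inj p hp q hq (hxd.trans hyd.symm)
      subst this
      exact (hap.symm.trans haq).dvd
    · rintro x hx _ ⟨d, rfl⟩ hxd hxx
      obtain ⟨p, hp, hap⟩ := irr_iff.1 hx
      rw [← (hap.pow_pow (n := 2)).dvd_iff_dvd_left, sq_dvd_sub hp, deriv_con] at hxx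
      exact h.der p hp hxx.2

open Fo in
theorem D1_Coord : D1 Coord := by
  refine D.congr (P := fun v : ℕ → H => CoordF (v 0)) ?_ fun v => CoordF_iff _
  unfold CoordF
  refine D.and ?_ (D.and ?_ ?_)
  · exact D.all ((D1_K.app (T.var 0)).imp ((D.unit ((T.var 1).sub (T.var 0))).not.iff
      (D2_NL.app T.one (T.var 0)).not))
  · refine D.all ((D1_irr.app (T.var 0)).imp (D.all ((D1_irr.app (T.var 0)).imp
      (D.all ((D1_K.app (T.var 0)).imp ?_)))))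
    -- d = 0, h' = 1, h = 2, u = 3
    exact (D.dvd (T.var 2) ((T.var 3).sub (T.var 0))).imp
      ((D.dvd (T.var 1) ((T.var 3).sub (T.var 0))).imp (D.dvd (T.var 2) (T.var 1)))
  · refine D.all ((D1_irr.app (T.var 0)).imp (D.all ((D1_K.app (T.var 0)).imp ?_)))
    exact (D.dvd (T.var 1) ((T.var 2).sub (T.var 0))).imp
      (D.dvd ((T.var 1).pow 2) ((T.var 2).sub (T.var 0))).not

/-- the formula for multiplicative functions -/
def MultF (u E : H) : Prop :=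
  ∀ h₁, Irreducible h₁ → ∀ h₂, Irreducible h₂ → ∀ h₃, Irreducible h₃ → ∀ t, K t → ∀ s, K s →
    h₁ ∣ u - (1 - t) → h₂ ∣ u - (1 - s) → h₃ ∣ u - (1 - t * s) → ∀ c₁, K c₁ → ∀ c₂, K c₂ →
      h₁ ∣ E - c₁ → h₂ ∣ E - c₂ → h₃ ∣ E - c₁ * c₂

theorem MultF_iff (u E : H) : MultF u E ↔ Mult u E := by
  constructor
  · intro h p₁ h₁ p₂ h₂ p₃ h₃ he
    have := h _ (irr_pt h₁) _ (irr_pt h₂) _ (irr_pt h₃) (con (1 - (u : ℂ → ℂ) p₁)) ⟨_, rfl⟩
      (con (1 - (u : ℂ → ℂ) p₂)) ⟨_, rfl⟩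
      (by rw [← con_one, ← con_sub, dvd_con h₁]; ring)
      (by rw [← con_one, ← con_sub, dvd_con h₂]; ring)
      (by rw [← con_one, ← con_mul, ← con_sub, dvd_con h₃, ← he]; ring)
      (con ((E : ℂ → ℂ) p₁)) ⟨_, rfl⟩ (con ((E : ℂ → ℂ) p₂)) ⟨_, rfl⟩
      ((dvd_con h₁ _ _).2 rfl) ((dvd_con h₂ _ _).2 rfl)
    rwa [← con_mul, dvd_con h₃] at this
  · rintro h x₁ hx₁ x₂ hx₂ x₃ hx₃ _ ⟨t, rfl⟩ _ ⟨s, rfl⟩ e1 e2 e3 _ ⟨c₁, rfl⟩ _ ⟨c₂, rfl⟩ e4 e5
    obtain ⟨p₁, h₁, a₁⟩ := irr_iff.1 hx₁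
    obtain ⟨p₂, h₂, a₂⟩ := irr_iff.1 hx₂
    obtain ⟨p₃, h₃, a₃⟩ := irr_iff.1 hx₃
    rw [← a₁.dvd_iff_dvd_left, ← con_one, ← con_sub, dvd_con h₁] at e1
    rw [← a₂.dvd_iff_dvd_left, ← con_one, ← con_sub, dvd_con h₂] at e2
    rw [← a₃.dvd_iff_dvd_left, ← con_one, ← con_mul, ← con_sub, dvd_con h₃] at e3
    rw [← a₁.dvd_iff_dvd_left, dvd_con h₁] at e4
    rw [← a₂.dvd_iff_dvd_left, dvd_con h₂] at e5
    rw [← a₃.dvd_iff_dvd_left, ← con_mul, dvd_con h₃, ← e4, ← e5]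
    apply h p₁ h₁ p₂ h₂ p₃ h₃
    rw [e1, e2, e3]
    ring

open Fo in
theorem D2_Mult : D2 Mult := by
  refine D.congr (P := fun v : ℕ → H => MultF (v 0) (v 1)) ?_ fun v => MultF_iff _ _
  unfold MultF
  refine D.all ((D1_irr.app (T.var 0)).imp (D.all ((D1_irr.app (T.var 0)).imp
    (D.all ((D1_irr.app (T.var 0)).imp (D.all ((D1_K.app (T.var 0)).imp
      (D.all ((D1_K.app (T.var 0)).imp ?_)))))))))
  -- s = 0, t = 1, h₃ = 2, h₂ = 3, h₁ = 4, u = 5, E = 6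
  refine (D.dvd (T.var 4) ((T.var 5).sub (T.one.sub (T.var 1)))).imp
    ((D.dvd (T.var 3) ((T.var 5).sub (T.one.sub (T.var 0)))).imp
      ((D.dvd (T.var 2) ((T.var 5).sub (T.one.sub ((T.var 1).mul (T.var 0))))).imp ?_))
  refine D.all ((D1_K.app (T.var 0)).imp (D.all ((D1_K.app (T.var 0)).imp ?_)))
  -- c₂ = 0, c₁ = 1, h₃ = 4, h₂ = 5, h₁ = 6, E = 8
  exact (D.dvd (T.var 6) ((T.var 8).sub (T.var 1))).imp ((D.dvd (T.var 5) ((T.var 8).sub
    (T.var 0))).imp (D.dvd (T.var 4) ((T.var 8).sub ((T.var 1).mul (T.var 0)))))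

/-- the formula for majorants -/
def MajoF (f u E r : H) : Prop := ∃ G, IsUnit G ∧
  (∀ h, Irreducible h → ∀ c, K c → h ∣ G - c → NL 1 c) ∧
  (∀ h, Irreducible h → ∀ h', Irreducible h' → ∀ w, K w → ∀ c, K c → ∀ c', K c' →
    h' ∣ u - w → h ∣ u - r * w → h ∣ f - c → h' ∣ G - c' → NL c c') ∧
  (∀ h, Irreducible h → ∀ h', Irreducible h' → ∀ c, K c → ∀ c', K c' →
    h' ∣ u → h ∣ u - r → h' ∣ G - c → h ∣ E - c' → NL c c')

theorem MajoF_iff (f u E : H) (r : ℝ) : MajoF f u E (con r) ↔ Majo f u E r := by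
  constructor
  · rintro ⟨G, hG0, hG1, hG2, hG3⟩
    refine ⟨G, hG0, fun q hq => ?_, fun p hp q hq h => ?_, fun p hp q hq h h' => ?_⟩
    · have := hG1 _ (irr_pt hq) (con ((G : ℂ → ℂ) q)) ⟨_, rfl⟩ ((dvd_con hq _ _).2 rfl)
      rwa [NL_one] at this
    · have := hG2 _ (irr_pt hp) _ (irr_pt hq) (con ((u : ℂ → ℂ) q)) ⟨_, rfl⟩
        (con ((f : ℂ → ℂ) p)) ⟨_, rfl⟩ (con ((G : ℂ → ℂ) q)) ⟨_, rfl⟩ ((dvd_con hq _ _).2 rfl)
        (by rw [← con_mul, dvd_con hp]; exact h) ((dvd_con hp _ _).2 rfl) ((dvd_con hq _ _).2 rfl)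
      rwa [NL_con] at this
    · have := hG3 _ (irr_pt hp) _ (irr_pt hq) (con ((G : ℂ → ℂ) q)) ⟨_, rfl⟩
        (con ((E : ℂ → ℂ) p)) ⟨_, rfl⟩ ((pt_dvd hq).2 h) ((dvd_con hp _ _).2 h')
        ((dvd_con hq _ _).2 rfl) ((dvd_con hp _ _).2 rfl)
      rwa [NL_con] at this
  · rintro ⟨G, hG0, hG1, hG2, hG3⟩
    refine ⟨G, hG0, ?_, ?_, ?_⟩
    · rintro x hx _ ⟨c, rfl⟩ e1
      obtain ⟨q, hq, aq⟩ := irr_iff.1 hx
      rw [← aq.dvd_iff_dvd_left, dvd_con hq] at e1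
      rw [NL_one, ← e1]
      exact hG1 q hq
    · rintro x hx y hy _ ⟨w, rfl⟩ _ ⟨c, rfl⟩ _ ⟨c', rfl⟩ e1 e2 e3 e4
      obtain ⟨p, hp, ap⟩ := irr_iff.1 hx
      obtain ⟨q, hq, aq⟩ := irr_iff.1 hy
      rw [← aq.dvd_iff_dvd_left, dvd_con hq] at e1 e4
      rw [← ap.dvd_iff_dvd_left, ← con_mul, dvd_con hp] at e2
      rw [← ap.dvd_iff_dvd_left, dvd_con hp] at e3
      rw [NL_con, ← e3, ← e4]
      exact hG2 p hp q hq (by rw [e2, e1])
    · rintro x hx y hy _ ⟨c, rfl⟩ _ ⟨c', rfl⟩ e1 e2 e3 e4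
      obtain ⟨p, hp, ap⟩ := irr_iff.1 hx
      obtain ⟨q, hq, aq⟩ := irr_iff.1 hy
      rw [← aq.dvd_iff_dvd_left, pt_dvd hq] at e1
      rw [← aq.dvd_iff_dvd_left, dvd_con hq] at e3
      rw [← ap.dvd_iff_dvd_left, dvd_con hp] at e2 e4
      rw [NL_con, ← e3, ← e4]
      exact hG3 p hp q hq e1 e2

open Fo in
theorem D4_Majo : D4 MajoF := by
  unfold D4 MajoF
  -- f = 0, u = 1, E = 2, r = 3
  refine D.ex (D.and (D.unit (T.var 0)) (D.and ?_ (D.and ?_ ?_)))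
  · -- G = 0, f = 1, u = 2, E = 3, r = 4
    refine D.all ((D1_irr.app (T.var 0)).imp (D.all ((D1_K.app (T.var 0)).imp ?_)))
    -- c = 0, h = 1, G = 2
    exact (D.dvd (T.var 1) ((T.var 2).sub (T.var 0))).imp (D2_NL.app T.one (T.var 0))
  · refine D.all ((D1_irr.app (T.var 0)).imp (D.all ((D1_irr.app (T.var 0)).imp
      (D.all ((D1_K.app (T.var 0)).imp (D.all ((D1_K.app (T.var 0)).imp
        (D.all ((D1_K.app (T.var 0)).imp ?_)))))))))
    -- c' = 0, c = 1, w = 2, h' = 3, h = 4, G = 5, f = 6, u = 7, E = 8, r = 9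
    exact (D.dvd (T.var 3) ((T.var 7).sub (T.var 2))).imp
      ((D.dvd (T.var 4) ((T.var 7).sub ((T.var 9).mul (T.var 2)))).imp
        ((D.dvd (T.var 4) ((T.var 6).sub (T.var 1))).imp
          ((D.dvd (T.var 3) ((T.var 5).sub (T.var 0))).imp (D2_NL.app (T.var 1) (T.var 0)))))
  · refine D.all ((D1_irr.app (T.var 0)).imp (D.all ((D1_irr.app (T.var 0)).imp
      (D.all ((D1_K.app (T.var 0)).imp (D.all ((D1_K.app (T.var 0)).imp ?_)))))))
    -- c' = 0, c = 1, h' = 2, h = 3, G = 4, f = 5, u = 6, E = 7, r = 8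
    exact (D.dvd (T.var 2) (T.var 6)).imp
      ((D.dvd (T.var 3) ((T.var 6).sub (T.var 8))).imp
        ((D.dvd (T.var 2) ((T.var 4).sub (T.var 1))).imp
          ((D.dvd (T.var 3) ((T.var 7).sub (T.var 0))).imp (D2_NL.app (T.var 1) (T.var 0)))))

/-- the formula for logarithmic growth -/
def BdF (f : H) : Prop := ∃ u, ∃ E, Coord u ∧ Mult u E ∧ ∃ ρ, (K ρ ∧ ¬ NL 1 ρ) ∧
  ∀ s, Rl s → ¬ NL (s * s) ρ → ¬ NL 1 (s * s) → MajoF f u E (s * s)

theorem BdF_iff (f : H) : BdF f ↔ Bd f := by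
  have e : ∀ s : ℝ, con (s : ℂ) * con (s : ℂ) = con ((s * s : ℝ) : ℂ) := fun s => by
    rw [← con_mul]; apply con_ext; push_cast; rfl
  have en : ∀ s : ℝ, ‖((s * s : ℝ) : ℂ)‖ = s * s := fun s => by
    rw [Complex.norm_real, Real.norm_eq_abs, abs_of_nonneg (mul_self_nonneg s)]
  constructor
  · rintro ⟨u, E, hu, hE, _, ⟨⟨ρ, rfl⟩, hρ⟩, h⟩
    refine ⟨u, E, hu, hE, ρ, ?_, fun s h1 h2 => ?_⟩
    · rw [NL_one, not_le] at hρ
      simpa using hρ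
    · have := h (con s) ⟨s, rfl⟩
      rw [e, NL_con, NL_one, en, not_le, not_le, MajoF_iff] at this
      exact this h1 h2
  · rintro ⟨u, E, hu, hE, ρ, hρ, h⟩
    refine ⟨u, E, hu, hE, con ρ, ⟨⟨ρ, rfl⟩, ?_⟩, ?_⟩
    · rw [NL_one, not_le]
      simpa using hρ
    · rintro _ ⟨s, rfl⟩
      rw [e, NL_con, NL_one, en, not_le, not_le, MajoF_iff]
      exact h s

open Fo in
theorem D1_Bd : D1 Bd := by
  refine D.congr (P := fun v : ℕ → H => BdF (v 0)) ?_ fun v => BdF_iff _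
  unfold BdF
  refine D.ex (D.ex (D.and (D1_Coord.app (T.var 1)) (D.and (D2_Mult.app (T.var 1) (T.var 0))
    (D.ex (D.and (D.and (D1_K.app (T.var 0)) (D2_NL.app T.one (T.var 0)).not) (D.all ?_))))))
  -- s = 0, ρ = 1, E = 2, u = 3, f = 4
  exact (D1_R.app (T.var 0)).imp ((D2_NL.app ((T.var 0).mul (T.var 0)) (T.var 1)).not.imp
    ((D2_NL.app T.one ((T.var 0).mul (T.var 0))).not.imp
      (D4_Majo.app (T.var 4) (T.var 3) (T.var 2) ((T.var 0).mul (T.var 0)))))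

end Pool.Agent.W891.HD
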