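import Pool.Agent.W527.CL.Stm

/-! Weak simultaneous approximation. -/

set_option autoImplicit false

namespace Pool.Agent.W891.CLDIR

theorem t_DIR : Pool.Agent.W527.CL.S_DIR := by
  intro ι _ ρ η hη
  obtain ⟨x, _, φ, hφ, hlim⟩ := (isCompact_Icc : IsCompact (Set.Icc (0 : ι → ℝ) 1)).tendsto_subseq
    (x := fun k : ℕ => fun a => Int.fract ((k : ℝ) * ρ a))
    (fun k => ⟨fun a => Int.fract_nonneg _, fun a => (Int.fract_lt_one _).le⟩)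
  obtain ⟨N, hN⟩ := Metric.cauchySeq_iff.1 hlim.cauchySeq η hη
  have h1 := hN (N + 1) (Nat.le_succ N) N le_rfl
  have h2 : φ N < φ (N + 1) := hφ (Nat.lt_succ_self N)
  refine ⟨φ (N + 1) - φ N, Nat.sub_pos_of_lt h2,
    fun a => ⌊(φ (N + 1) : ℝ) * ρ a⌋ - ⌊(φ N : ℝ) * ρ a⌋, fun a => ?_⟩
  have h3 := (dist_le_pi_dist _ _ a).trans_lt h1
  simp only [Function.comp_apply, Real.dist_eq] at h3
  have h4 : (((φ (N + 1) - φ N : ℕ)) : ℝ) * ρ a -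
      ((⌊(φ (N + 1) : ℝ) * ρ a⌋ - ⌊(φ N : ℝ) * ρ a⌋ : ℤ) : ℝ) =
      Int.fract ((φ (N + 1) : ℝ) * ρ a) - Int.fract ((φ N : ℝ) * ρ a) := by
    rw [Nat.cast_sub h2.le]
    unfold Int.fract
    push_cast
    ring
  rw [h4]
  exact h3

end Pool.Agent.W891.CLDIR
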